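import Pool.Agent.Lib.FBC.T2.Tr

/-!
Chains, legal paths, expansion (for the T2 exports).
-/

namespace Pool.Agent.Lib.FBC.T2

open Forest

section Ch

variable {α β : Type}

/-- chains of `r` steps -/
def Ch (R : α → α → Prop) (r : ℕ) (a b : α) : Prop :=
  ∃ z : ℕ → α, z 0 = a ∧ z r = b ∧ ∀ i < r, R (z i) (z (i + 1))

variable {R : α → α → Prop} {a b c : α} {r r' : ℕ}

lemma ch_zero : Ch R 0 a b ↔ a = b :=
  ⟨fun ⟨_, h0, h1, _⟩ => h0.symm.trans h1, fun e => ⟨fun _ => a, rfl, e, by simp⟩⟩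

lemma Ch.refl (a : α) : Ch R 0 a a := ch_zero.2 rfl

lemma ch_seg {z : ℕ → α} (h : ∀ i < r, R (z i) (z (i + 1))) {i k : ℕ} (hk : i + k ≤ r) :
    Ch R k (z i) (z (i + k)) :=
  ⟨fun j => z (i + j), rfl, rfl, fun j hj => h (i + j) (by omega)⟩

lemma Ch.snoc (h : Ch R r a b) (e : R b c) : Ch R (r + 1) a c := by
  obtain ⟨z, h0, h1, h2⟩ := h
  refine ⟨fun i => if i ≤ r then z i else c, by simpa using h0, by simp, fun i hi => ?_⟩
  by_cases e' : i = r
  · subst e'; simpa [h1] using e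
  · have : i + 1 ≤ r := by omega
    have : i ≤ r := by omega
    simpa [*] using h2 i (by omega)

lemma ch_succ : Ch R (r + 1) a c ↔ ∃ b, Ch R r a b ∧ R b c :=
  ⟨fun ⟨z, h0, h1, h2⟩ => ⟨z r, ⟨z, h0, rfl, fun i hi => h2 i (by omega)⟩, h1 ▸ h2 r (by omega)⟩,
    fun ⟨_, h, e⟩ => h.snoc e⟩

lemma Ch.one (e : R a b) : Ch R 1 a b := (Ch.refl a).snoc e

lemma Ch.trans (h : Ch R r a b) (h' : Ch R r' b c) : Ch R (r + r') a c := by
  induction r' generalizing c with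
  | zero => exact ch_zero.1 h' ▸ h
  | succ k ih => obtain ⟨x, h1, h2⟩ := ch_succ.1 h'; exact (ih h1).snoc h2

lemma ch_succ' : Ch R (r + 1) a c ↔ ∃ b, R a b ∧ Ch R r b c :=
  ⟨fun ⟨z, h0, h1, h2⟩ => ⟨z 1, h0 ▸ h2 0 (by omega), fun i => z (i + 1), rfl, h1,
    fun i hi => h2 _ (by omega)⟩, fun ⟨_, e, h⟩ => add_comm 1 r ▸ (Ch.one e).trans h⟩

lemma Ch.split (h : Ch R (r + r') a c) : ∃ b, Ch R r a b ∧ Ch R r' b c := by
  obtain ⟨z, rfl, rfl, h2⟩ := h
  exact ⟨z r, by simpa using ch_seg h2 (i := 0) (k := r) (by omega), ch_seg h2 le_rfl⟩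

lemma Ch.mono (h : Ch R r a b) (hb : R b b) (e : r ≤ r') : Ch R r' a b := by
  induction e with
  | refl => exact h
  | step _ ih => exact ih.snoc hb

lemma Ch.symm (hR : ∀ x y, R x y → R y x) (h : Ch R r a b) : Ch R r b a := by
  induction r generalizing b with
  | zero => exact ch_zero.2 (ch_zero.1 h).symm
  | succ k ih => obtain ⟨x, h1, h2⟩ := ch_succ.1 h; exact ch_succ'.2 ⟨x, hR _ _ h2, ih h1⟩

lemma Ch.map {S : β → β → Prop} (f : α → β) (hf : ∀ x y, R x y → S (f x) (f y))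
    (h : Ch R r a b) : Ch S r (f a) (f b) :=
  let ⟨z, h0, h1, h2⟩ := h
  ⟨fun i => f (z i), congrArg f h0, congrArg f h1, fun i hi => hf _ _ (h2 i hi)⟩

lemma Ch.bind {S : β → β → Prop} {k : ℕ} (f : α → β) (hf : ∀ x y, R x y → Ch S k (f x) (f y))
    (h : Ch R r a b) : Ch S (r * k) (f a) (f b) := by
  induction r generalizing b with
  | zero => rw [zero_mul, ch_zero.1 h]; exact .refl _
  | succ n ih =>
    obtain ⟨x, h1, h2⟩ := ch_succ.1 h
    rw [Nat.succ_mul]; exact (ih h1).trans (hf _ _ h2)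

/-- grouping a chain in blocks -/
lemma Ch.group {k : ℕ} (h : Ch R (r * k) a b) : Ch (Ch R k) r a b := by
  induction r generalizing b with
  | zero => rw [zero_mul, ch_zero] at h; exact h ▸ .refl _
  | succ n ih =>
    rw [Nat.succ_mul] at h
    obtain ⟨x, h1, h2⟩ := h.split
    exact (ih h1).snoc h2

lemma Ch.inv (f : α → β) (hf : ∀ x y, R x y → f x = f y) (h : Ch R r a b) : f a = f b := by
  induction r generalizing b with
  | zero => rw [ch_zero.1 h]
  | succ n ih => obtain ⟨x, h1, h2⟩ := ch_succ.1 h; exact (ih h1).trans (hf _ _ h2)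

lemma ch_of_rtg (h : Relation.ReflTransGen R a b) : ∃ r, Ch R r a b := by
  induction h with
  | refl => exact ⟨0, .refl _⟩
  | tail _ e ih => exact let ⟨r, h⟩ := ih; ⟨r + 1, h.snoc e⟩

lemma Ch.rtg (h : Ch R r a b) : Relation.ReflTransGen R a b := by
  induction r generalizing b with
  | zero => exact ch_zero.1 h ▸ .refl
  | succ n ih => obtain ⟨x, h1, h2⟩ := ch_succ.1 h; exact (ih h1).tail h2

end Ch

variable {G : Type} [Group G] {d : Dg G} {Y : Forest d}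

lemma ch_adj {R : Y.V → Y.V → Prop} (hR : ∀ x y, Adj x y → R x y) {a b : Y.V}
    (h : Y.lev a = Y.lev b) : Ch R (Y.dist a b) a b := by
  refine ds_ind (P := fun a => Ch R (Y.dist a b) a b) (by simpa using Ch.refl b)
    (fun a x h1 h2 ih => ?_) h
  rw [← bt_ds h2, (adj_ds h1).2, add_comm]
  exact ch_succ'.2 ⟨x, hR _ _ h1, ih⟩

/-- projection of a chain to a segment `[x, y]`; the steps may use that they lie in `[x, y]` -/
lemma ch_proj {R S : Y.V → Y.V → Prop} {x y : Y.V} (hl : ∀ u v, R u v → Y.lev u = Y.lev v)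
    (h0 : ∀ m, Y.btw x m y → S m m)
    (h1 : ∀ u v m n, R u v → Y.btw u m v → Y.btw u n v → Y.btw x m y → Y.btw x n y → S m n)
    {r : ℕ} {a b m n : Y.V} (h : Ch R r a b) (hm : Pr x y a m) (hn : Pr x y b n) :
    Ch S r m n := by
  induction r generalizing b n with
  | zero =>
    rw [ch_zero] at h ⊢
    subst h
    exact (hm.two hn).elim id fun e => (bt_self e.1).trans (bt_self e.2).symm
  | succ k ih =>
    obtain ⟨u, e1, e2⟩ := ch_succ.1 h
    obtain ⟨l, hl'⟩ := ex_pr (u := u) (bt_lev hn.1) ((bt_lev hn.2.2).trans (hl _ _ e2).symm)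
    refine (ih e1 hl').snoc ?_
    rcases hl'.two hn with e | e
    · exact e ▸ h0 _ hl'.1
    · exact h1 _ _ _ _ e2 e.1 e.2 hl'.1 hn.1

lemma ch_sub {R S : Y.V → Y.V → Prop} {x y : Y.V} (hl : ∀ u v, R u v → Y.lev u = Y.lev v)
    (hs : ∀ u v, S u v → S v u) (h0 : ∀ m, Y.btw x m y → S m m)
    (h1 : ∀ u v m n, R u v → Y.btw u m v → Y.btw u n v → Y.btw x m y → Y.btw x n y → S m n)
    {r : ℕ} {a b : Y.V} (h : Ch R r a b) (hx : Y.btw a x b) (hy : Y.btw a y b) : Ch S r x y := by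
  have l := hx.2.1.trans hy.2.1.symm
  rcases bt_total hx hy with e | e
  · exact ch_proj hl h0 h1 h ⟨bt_left l, bt_left hx.1.symm, bt_symm e⟩
      ⟨bt_right l, bt_in e hy, bt_left hy.2.1⟩
  · exact (ch_proj hl h0 h1 h ⟨bt_right l, bt_symm e, bt_left hy.1.symm⟩
      ⟨bt_left l, bt_left hx.2.1, bt_in e hx⟩).symm hs

lemma cross_bt {a b : Y.V} {e : Y.Dir} (h : Y.Cross a b e) :
    Y.btw a e.src b ∧ Y.btw a e.tgt b ∧ Y.btw a e.src e.tgt := by
  have h1 : e.1.sd a = e.2 := by simpa [Dir.rv] using h.1.2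
  have hm : e.1 ∈ sep a b := by
    rw [mem_sep ((h.1.1.trans (lev_ed_eq _ _ _)).trans h.2.1.symm), h1, h.2.2]; simp
  refine ⟨bt_ed hm _, bt_ed hm _, (bt_total (bt_ed hm _) (bt_ed hm _)).resolve_right fun e' => ?_⟩
  have := e'.2.2 e.1 (by simp [h1])
  simp [h1] at this

variable {s : Flow Y}

lemma σ_smul (g : G) (a : Y.V) : s.σ (g • a) = g • s.σ a := s.f.map_smul g a

lemma it_smul (n : ℕ) (g : G) (a : Y.V) : s.σ^[n] (g • a) = g • s.σ^[n] a := by
  induction n generalizing a with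
  | zero => rfl
  | succ n ih => rw [Function.iterate_succ_apply, σ_smul, ih]; rfl

lemma lev_σ {a b : Y.V} (h : Y.lev a = Y.lev b) : Y.lev (s.σ a) = Y.lev (s.σ b) := s.f.lev_eq h

lemma lev_it (n : ℕ) {a b : Y.V} (h : Y.lev a = Y.lev b) :
    Y.lev (s.σ^[n] a) = Y.lev (s.σ^[n] b) := by
  induction n generalizing a b with
  | zero => exact h
  | succ n ih => exact ih (lev_σ h)

lemma lev_it' (n : ℕ) (a : Y.V) : Y.lev (s.σ^[n] a) = Y.lev a + n := by
  induction n generalizing a with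
  | zero => simp
  | succ n ih =>
    rw [Function.iterate_succ_apply, ih, show Y.lev (s.σ a) = _ from s.f.lev_map a]
    push_cast; ring

variable {a b u x y z : Y.V}

lemma lg_bt (h : s.Legal x y z) : Y.btw x y z := h 0

lemma lg_symm (h : s.Legal x y z) : s.Legal z y x := fun n => bt_symm (h n)

lemma lg_σ (h : s.Legal x y z) : s.Legal (s.σ x) (s.σ y) (s.σ z) := fun n => h (n + 1)

lemma lg_it (h : s.Legal x y z) (k : ℕ) : s.Legal (s.σ^[k] x) (s.σ^[k] y) (s.σ^[k] z) :=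
  fun n => by simpa only [← Function.iterate_add_apply] using h (n + k)

lemma lg_left (h : Y.lev x = Y.lev z) : s.Legal x x z := fun n => bt_left (lev_it n h)

lemma lg_right (h : Y.lev x = Y.lev z) : s.Legal x z z := fun n => bt_right (lev_it n h)

lemma lp_symm (h : s.LegalP a b) : s.LegalP b a :=
  ⟨h.1.symm, fun x y z hx hy hz => h.2 x y z (bt_symm hx) (bt_symm hy) (bt_symm hz)⟩

lemma lp_sub (h : s.LegalP a b) (hx : Y.btw a x b) (hy : Y.btw a y b) : s.LegalP x y :=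
  ⟨hx.2.1.trans hy.2.1.symm, fun u v w hu hv hw =>
    h.2 u v w (bt_conv hx hy hu) (bt_conv hx hy hv) (bt_conv hx hy hw)⟩

lemma lp_left (h : s.LegalP a b) (hx : Y.btw a x b) : s.LegalP a x := lp_sub h (bt_left h.1) hx

lemma lp_right (h : s.LegalP a b) (hx : Y.btw a x b) : s.LegalP x b := lp_sub h hx (bt_right h.1)

lemma lp_lg (h : s.LegalP a b) (hx : Y.btw a x b) : s.Legal a x b :=
  h.2 _ _ _ (bt_left h.1) hx (bt_right h.1) hx

lemma lp_bt (h : s.LegalP a b) (hx : Y.btw a x b) : Y.btw (s.σ a) (s.σ x) (s.σ b) := lp_lg h hx 1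

lemma lp_refl (a : Y.V) : s.LegalP a a := ⟨rfl, fun x y z hx hy hz _ => by
  rw [bt_self hx, bt_self hy, bt_self hz]; exact lg_left rfl⟩

lemma lp_adj (h : Adj a b) : s.LegalP a b := ⟨(adj_ds h).1, fun x y z hx hy hz e => by
  by_cases e1 : y = x
  · exact e1 ▸ lg_left e.2.1
  by_cases e2 : y = z
  · exact e2 ▸ lg_right e.1
  have : x = z := by
    rcases bt_adj h hx with rfl | rfl <;> rcases bt_adj h hy with rfl | rfl <;>
      rcases bt_adj h hz with rfl | rfl <;> simp_all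
  exact (e1 (bt_self (this ▸ e))).elim⟩

lemma lp_smul (g : G) (h : s.LegalP a b) : s.LegalP (g • a) (g • b) := by
  refine ⟨lev_sm g h.1, fun x y z hx hy hz e n => ?_⟩
  have k : ∀ {x}, Y.btw (g • a) x (g • b) → Y.btw a (g⁻¹ • x) b := fun h => by
    simpa using bt_smul g⁻¹ h
  have := bt_smul g (h.2 _ _ _ (k hx) (k hy) (k hz) (bt_smul g⁻¹ e) n)
  simpa [it_smul] using this

lemma lp_cat (h : s.LegalP a u) (h' : s.LegalP u b) (e : s.Legal a u b) : s.LegalP a b := by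
  have e0 := lg_bt e
  have key : ∀ x y z, Y.btw a x b → Y.btw a y b → Y.btw a z b → Y.btw x y z →
      Y.btw a x z → s.Legal x y z := by
    intro x y z hx hy hz hb ho n
    rcases bt_split e0 hz with c | c
    · exact h.2 x y z (bt_out ho c) (bt_out (bt_out' ho hb) c) c hb n
    rcases bt_split e0 hx with c' | c'
    swap
    · exact h'.2 x y z c' (bt_conv c' c hb) c hb n
    have m : Y.btw (s.σ^[n] x) (s.σ^[n] u) (s.σ^[n] z) :=
      bt_in' (bt_in (lp_lg h c' n) (e n)) (lp_lg h' c n)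
    rcases bt_split e0 hy with c'' | c''
    · exact bt_out (h.2 x y u c' c'' (bt_right h.1) (bt_in (bt_in' ho hb) c'') n) m
    · exact bt_out' m (h'.2 u y z (bt_left h'.1) c'' c
        (bt_in' c'' (bt_in (bt_out' ho hb) hz)) n)
  refine ⟨bt_lev e0, fun x y z hx hy hz hb => ?_⟩
  rcases bt_total hx hz with o | o
  · exact key x y z hx hy hz hb o
  · exact lg_symm (key z y x hz hy hx (bt_symm hb) o)

lemma lp_σ (T : s.TT) (h : s.LegalP a b) : s.LegalP (s.σ a) (s.σ b) := by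
  refine ds_ind (P := fun a => s.LegalP a b → s.LegalP (s.σ a) (s.σ b)) (fun _ => lp_refl _)
    (fun a x h1 h2 ih h => ?_) h.1 h
  obtain ⟨c, β, rfl, rfl⟩ := h1
  exact lp_cat (T.legal (c, β)) (ih (lp_right h h2)) (lg_σ (lp_lg h h2))

lemma lp_it (T : s.TT) (h : s.LegalP a b) (n : ℕ) : s.LegalP (s.σ^[n] a) (s.σ^[n] b) := by
  induction n generalizing a b with
  | zero => exact h
  | succ n ih => exact ih (lp_σ T h)

lemma exp_adj (T : s.TT) (h : Adj a b) : 4 ≤ Y.dist (s.σ a) (s.σ b) := by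
  obtain ⟨c, β, rfl, rfl⟩ := h
  obtain ⟨i⟩ := T.ne
  obtain ⟨e, e', hne, -, -, ⟨h1, h2, h3⟩, h4, h5, h6⟩ := T.prim (c, β) i
  obtain ⟨a1, a2, a3⟩ := cross_bt h1
  obtain ⟨b1, b2, b3⟩ := cross_bt h4
  have k1 := bt_ds a3; have k2 := bt_ds b3; have k3 := bt_ds a2; have k4 := bt_ds b2
  have k5 := (adj_ds (first_adj (first_self e))).2
  have k6 := (adj_ds (first_adj (first_self e'))).2
  have k7 := ds_pos a1.1 h2.symm; have k8 := ds_pos b1.1 h5.symm
  have k9 := ds_pos a2.2.1 h3; have k10 := ds_pos b2.2.1 h6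
  have : Y.dist (s.σ^[1] (Dir.src (c, β))) e.src ≠ Y.dist (s.σ^[1] (Dir.src (c, β))) e'.src := by
    intro q
    have q1 := eq_of_pos a1 b1 q
    have q2 := eq_of_pos a2 b2 (by omega)
    have := sep_src_tgt e
    rw [q1, q2, sep_src_tgt] at this
    exact hne (Finset.singleton_injective this).symm
  change 4 ≤ Y.dist (s.σ^[1] (Dir.src (c, β))) (s.σ^[1] (Dir.tgt (c, β)))
  omega

lemma exp_σ (T : s.TT) (h : s.LegalP a b) : 4 * Y.dist a b ≤ Y.dist (s.σ a) (s.σ b) := by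
  refine ds_ind (P := fun a => s.LegalP a b → 4 * Y.dist a b ≤ Y.dist (s.σ a) (s.σ b))
    (fun _ => by simp) (fun a x h1 h2 ih h => ?_) h.1 h
  have := ih (lp_right h h2)
  have := exp_adj T h1
  have := bt_ds h2
  have := bt_ds (lp_bt h h2)
  have := (adj_ds h1).2
  omega

lemma exp_it (T : s.TT) (h : s.LegalP a b) (n : ℕ) :
    4 ^ n * Y.dist a b ≤ Y.dist (s.σ^[n] a) (s.σ^[n] b) := by
  induction n generalizing a b with
  | zero => simp
  | succ n ih =>
    refine le_trans ?_ (ih (lp_σ T h))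
    rw [pow_succ, mul_assoc]
    exact Nat.mul_le_mul_left _ (exp_σ T h)

lemma exp_lt (T : s.TT) (h : s.LegalP a b) (hne : a ≠ b) (n : ℕ) :
    n < Y.dist (s.σ^[n] a) (s.σ^[n] b) :=
  (Nat.lt_pow_self (by norm_num : 1 < 4)).trans_le
    ((Nat.le_mul_of_pos_right _ (ds_pos h.1 hne)).trans (exp_it T h n))

lemma exp_ne (T : s.TT) (h : s.LegalP a b) (hne : a ≠ b) (n : ℕ) : s.σ^[n] a ≠ s.σ^[n] b :=
  fun e => by simpa [e] using exp_lt T h hne n

/-- overlapping legal paths -/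
lemma lp_over (T : s.TT) (h : s.LegalP a y) (h' : s.LegalP x b) (h1 : Y.btw a x y)
    (h2 : Y.btw x y b) (hne : x ≠ y) : s.LegalP a b :=
  lp_cat (lp_left h h1) h' fun n =>
    bt_four (lp_lg h h1 n) (lp_lg h' h2 n) (exp_ne T (lp_right h h1) hne n)

lemma il_lev {r : ℕ} (h : s.IL r a b) : Y.lev a = Y.lev b := Ch.inv Y.lev (fun _ _ e => e.1) h

lemma il_ds (h : Y.lev a = Y.lev b) : s.IL (Y.dist a b) a b := ch_adj (fun _ _ => lp_adj) h

lemma il_mono {r r' : ℕ} (h : s.IL r a b) (e : r ≤ r') : s.IL r' a b := Ch.mono h (lp_refl _) e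

lemma il_le {r : ℕ} (h : Y.lev a = Y.lev b) (e : Y.dist a b ≤ r) : s.IL r a b :=
  il_mono (il_ds h) e

lemma il_sub {r : ℕ} (h : s.IL r a b) (hx : Y.btw a x b) (hy : Y.btw a y b) : s.IL r x y :=
  ch_sub (R := s.LegalP) (S := s.LegalP) (fun _ _ e => e.1) (fun _ _ => lp_symm)
    (fun _ _ => lp_refl _) (fun _ _ _ _ e h1 h2 _ _ => lp_sub e h1 h2) h hx hy

lemma il_it (T : s.TT) {r : ℕ} (h : s.IL r a b) (n : ℕ) : s.IL r (s.σ^[n] a) (s.σ^[n] b) :=
  Ch.map (R := s.LegalP) (S := s.LegalP) _ (fun _ _ e => lp_it T e n) h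

lemma nl_sub {L : ℕ} (h : s.NoLeg L a b) (hx : Y.btw a x b) (hy : Y.btw a y b) :
    s.NoLeg L x y := fun u v hu hv => h u v (bt_conv hx hy hu) (bt_conv hx hy hv)

lemma ch_ds {N r : ℕ} (h : Ch (fun u v => Y.lev u = Y.lev v ∧ Y.dist u v ≤ N) r a b) :
    Y.dist a b ≤ r * N := by
  induction r generalizing b with
  | zero => simp [ch_zero.1 h]
  | succ n ih =>
    obtain ⟨x, h1, h2⟩ := ch_succ.1 h
    have := ds_tri (Ch.inv Y.lev (fun _ _ e => e.1) h1) h2.1
    have := ih h1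
    have := h2.2
    rw [Nat.succ_mul]; omega

/-- few illegal turns and no long legal segment: short -/
lemma il_short {N r : ℕ} (h : s.IL r a b) (h' : s.NoLeg N a b) : Y.dist a b ≤ r * N :=
  ch_ds (ch_sub (R := s.LegalP) (fun _ _ e => e.1) (fun u v e => ⟨e.1.symm, ds_comm u v ▸ e.2⟩)
    (fun _ _ => ⟨rfl, by simp⟩)
    (fun _ _ _ _ e h1 h2 h3 h4 => ⟨(lp_sub e h1 h2).1, (h' _ _ h3 h4 (lp_sub e h1 h2)).le⟩) h
    (bt_left (il_lev h)) (bt_right (il_lev h)))

end Pool.Agent.Lib.FBC.T2
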