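import Pool.Agent.Lib.FBC.EM
import Pool.Agent.Lib.FBC.Blue0

/-!
The comparison maps are Lipschitz for the coned-off lengths; segments that are short in both
directions of time.
-/

namespace Pool.Agent.Lib.FBC.T2

open Forest

variable {G : Type} [Group G] {d d' : Dg G} {Y : Forest d} {s : Flow Y}

/-- Nielsen classes are permuted isometrically by the flow. -/
def St_PULL : Prop := ∀ (G : Type) [Group G] (d : Dg G), FC d → ∀ (Y : Forest d) (s : Flow Y),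
  s.NF → ∀ p q, s.Cls p q → Y.dist (s.σ p) (s.σ q) = Y.dist p q ∧ s.Cls (s.σ p) (s.σ q) ∧
    (p ≠ q → ∃ p0 q0, s.Cls p0 q0 ∧ s.σ p0 = p ∧ s.σ q0 = q)

/-! ### legal paths -/

lemma cn_lp_symm {a b : Y.V} (h : s.LegalP a b) : s.LegalP b a :=
  ⟨h.1.symm, fun x y z hx hy hz t => h.2 x y z hx.symm hy.symm hz.symm t⟩

lemma cn_lp_sub {a b x y : Y.V} (h : s.LegalP a b) (hx : Y.btw a x b) (hy : Y.btw a y b) :
    s.LegalP x y :=
  ⟨hx.lev2.trans hy.lev2.symm, fun u v w hu hv hw t =>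
    h.2 u v w (hx.convex hy hu) (hx.convex hy hv) (hx.convex hy hw) t⟩

lemma cn_lp_refl (a : Y.V) : s.LegalP a a :=
  ⟨rfl, fun x y z hx hy hz _ n => by
    rw [hx.eq_of_self, hy.eq_of_self, hz.eq_of_self]; exact btw_refl _⟩

lemma cn_lp_mono (hT : s.TT) (n : ℕ) {x y : Y.V} (h : s.LegalP x y) :
    ∀ u v, Y.btw (s.σ x) u v → Y.btw (s.σ x) v (s.σ y) →
      Y.btw (s.σ^[n] (s.σ x)) (s.σ^[n] u) (s.σ^[n] v) := by
  have l := h.1
  revert h
  refine dir_ind (P := fun x => s.LegalP x y → ∀ u v, Y.btw (s.σ x) u v →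
    Y.btw (s.σ x) v (s.σ y) → Y.btw (s.σ^[n] (s.σ x)) (s.σ^[n] u) (s.σ^[n] v)) ?_ ?_ l
  · intro _ u v hu hv
    have e1 := hv.eq_of_self
    subst e1
    rw [hu.eq_of_self]; exact btw_refl _
  · intro e he ih h u v hu hv
    have ih := ih (cn_lp_sub h he.btw_tgt (btw_right h.1))
    have hl := h.2 _ _ _ (btw_left h.1) he.btw_tgt (btw_right h.1) he.btw_tgt
    have h1 : Y.btw (s.σ e.src) (s.σ e.tgt) (s.σ y) := hl 1
    have h2 : Y.btw (s.σ^[n] (s.σ e.src)) (s.σ^[n] (s.σ e.tgt)) (s.σ^[n] (s.σ y)) := hl (n + 1)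
    have hE := hT.legal e
    rcases hv.total h1 with t | t
    · exact hE.2 _ _ _ (btw_left hE.1) (t.trans_left hu) t hu n
    · have t' := hv.trans_left' t
      have h3 := h2.trans_right' (ih v _ t' (btw_right h1.lev2))
      rcases hu.total t with r | r
      · exact h3.trans_left (hE.2 _ _ _ (btw_left hE.1) r (btw_right hE.1) r n)
      · have r' : Y.btw (s.σ e.tgt) u v := hu.trans_left' r
        exact h3.trans_right (ih u v r' (hv.trans_left' t))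

lemma cn_lp_next (hT : s.TT) {x y : Y.V} (h : s.LegalP x y) : s.LegalP (s.σ x) (s.σ y) := by
  have key : ∀ {x y : Y.V}, s.LegalP x y → ∀ u v w, Y.btw (s.σ x) w (s.σ y) →
      Y.btw (s.σ x) u v → Y.btw (s.σ x) v w → s.Legal u v w := fun h u v w hw h1 h2 n =>
    (cn_lp_mono hT n h v w h2 hw).trans_left' (cn_lp_mono hT n h u v h1 (hw.trans_left h2))
  refine ⟨s.lev_σ_eq h.1, fun u v w hu hv hw t => ?_⟩
  rcases hu.total hw with r | r
  · exact key h u v w hw (r.trans_right' t) (r.trans_right t)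
  · exact fun n => (key h w v u hu (r.trans_right' t.symm) (r.trans_right t.symm) n).symm

lemma cn_lp_exp (hT : s.TT) {x y : Y.V} (h : s.LegalP x y) :
    2 * Y.dist x y ≤ Y.dist (s.σ x) (s.σ y) := by
  have l := h.1
  revert h
  refine dir_ind (P := fun x => s.LegalP x y → 2 * Y.dist x y ≤ Y.dist (s.σ x) (s.σ y))
    (by simp) (fun e he ih h => ?_) l
  have ih := ih (cn_lp_sub h he.btw_tgt (btw_right h.1))
  have h1 : Y.btw (s.σ e.src) (s.σ e.tgt) (s.σ y) :=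
    h.2 _ _ _ (btw_left h.1) he.btw_tgt (btw_right h.1) he.btw_tgt 1
  obtain ⟨e', -, -, -, -, ⟨h2, h3, -⟩, -⟩ := hT.prim e e.1.i
  have h4 : Y.Cross (s.σ e.src) (s.σ e.tgt) e' := h2
  have h5 := h4.dist_eq
  have h6 := dist_pos h4.lev_src (Ne.symm h3)
  have := h1.dist_add
  have := he.dist_tgt
  omega

/-- the projection to a segment that is close to another one -/
lemma cn_near {a b a' b' x m m' : Y.V} {C : ℕ} (la : Y.lev a = Y.lev a') (lb : Y.lev b = Y.lev b')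
    (ha : Y.dist a a' ≤ C) (hb : Y.dist b b' ≤ C) (h : Y.Med a b x m) (h' : Y.Med a' b' x m') :
    Y.dist x m' ≤ Y.dist x m + C := by
  have lm : Y.lev x = Y.lev m := h.2.2.lev2.symm
  have fin : ∀ p, Y.btw a' p b' → Y.lev m = Y.lev p → Y.dist m p ≤ C →
      Y.dist x m' ≤ Y.dist x m + C := fun p hp l e => by
    have h1 := (h'.gate hp).symm.dist_le
    have h2 := dist_triangle lm l
    omega
  rcases h.1.cover la with t | t
  · exact fin a' (btw_left h'.1.lev3) t.lev2 (t.dist_le'.trans ha)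
  · rcases t.cover h'.1.lev3 with r | r
    · exact fin m r rfl (by simp)
    · refine fin b' (btw_right h'.1.lev3) r.lev1.symm ?_
      have := r.symm.dist_le'
      omega

/-- long legal segments grow along pseudo-orbits -/
lemma cn_grow (hd : FC d) (hT : s.TT) : ∃ C, ∀ (C0 : ℕ) a b x y a' b', Y.btw a x b →
    Y.btw a y b → s.LegalP x y → Y.lev (s.σ a) = Y.lev a' → Y.lev (s.σ b) = Y.lev b' →
    Y.dist (s.σ a) a' ≤ C0 → Y.dist (s.σ b) b' ≤ C0 →
    ∃ x' y', Y.btw a' x' b' ∧ Y.btw a' y' b' ∧ s.LegalP x' y' ∧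
      2 * Y.dist x y ≤ Y.dist x' y' + 2 * C + 2 * C0 := by
  obtain ⟨C, hC⟩ := s.exists_bcc hd.surj 1
  refine ⟨C, fun C0 a b x y a' b' hx hy h la lb ha hb => ?_⟩
  have lab : Y.lev (s.σ a) = Y.lev (s.σ b) := s.lev_σ_eq hx.lev3
  have l' : Y.lev a' = Y.lev b' := la.symm.trans (lab.trans lb)
  have near : ∀ x, Y.btw a x b → ∃ x', Y.Med a' b' (s.σ x) x' ∧ Y.dist (s.σ x) x' ≤ C + C0 := by
    intro x hx
    have lx := s.lev_σ_eq hx.lev1
    obtain ⟨m, hm⟩ := exists_med lab lx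
    obtain ⟨m', hm'⟩ := exists_med l' (la.symm.trans lx)
    have h1 : Y.dist (s.σ x) m ≤ C := hC a x b m hx hm
    have h2 := cn_near la lb ha hb hm hm'
    exact ⟨m', hm', by omega⟩
  obtain ⟨x', x1, x2⟩ := near x hx
  obtain ⟨y', y1, y2⟩ := near y hy
  refine ⟨x', y', x1.1, y1.1, ?_, ?_⟩
  · by_cases e : x' = y'
    · exact e ▸ cn_lp_refl _
    · exact cn_lp_sub (cn_lp_next hT h) (x1.piece y1 e).1 (x1.piece y1 e).2
  · have h1 := cn_lp_exp hT h
    have lx : Y.lev (s.σ x) = Y.lev x' := x1.2.2.lev2.symm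
    have ly : Y.lev (s.σ y) = Y.lev y' := y1.2.2.lev2.symm
    have lxy : Y.lev x' = Y.lev y' := x1.1.lev2.trans y1.1.lev2.symm
    have h2 := dist_triangle lx (lxy.trans ly.symm)
    have h3 := dist_triangle lxy ly.symm
    rw [Forest.dist_comm y'] at h3
    omega

/-! ### coned-off lengths -/

lemma cn_cls_symm {p q : Y.V} (h : s.Cls p q) : s.Cls q p := by
  induction h with
  | refl => exact .refl
  | tail _ e ih =>
    obtain ⟨y, h1, h2, h3, h4, γ, h5, h6⟩ := e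
    exact .head ⟨y, h1.symm, cn_lp_symm h3, cn_lp_symm h2, fun t => h4 (cn_lp_symm t), γ, h6, h5⟩ ih

lemma cn_cls_lev {p q : Y.V} (h : s.Cls p q) : Y.lev p = Y.lev q := by
  induction h with
  | refl => rfl
  | tail _ e ih => obtain ⟨y, h1, -⟩ := e; exact ih.trans h1.lev3

lemma cn_piece_lev {x y : Y.V} (h : s.Piece x y) : Y.lev x = Y.lev y := by
  rcases h with rfl | h | ⟨p, q, -, h1, h2⟩
  · rfl
  · exact h.lev
  · exact h1.lev2.trans h2.lev2.symm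

lemma cn_nl_zero {a b : Y.V} : s.NL 0 a b ↔ a = b :=
  ⟨fun ⟨_, h1, h2, _⟩ => h1.symm.trans h2, fun h => ⟨fun _ => a, rfl, h, fun _ hi => by omega⟩⟩

lemma cn_nl_succ {r : ℕ} {a b : Y.V} : s.NL (r + 1) a b ↔ ∃ x, s.Piece a x ∧ s.NL r x b := by
  constructor
  · rintro ⟨z, h1, h2, h3⟩
    exact ⟨z 1, h1 ▸ h3 0 (by omega), fun i => z (i + 1), rfl, h2, fun i hi => h3 _ (by omega)⟩
  · rintro ⟨x, h0, z, h1, h2, h3⟩
    refine ⟨fun i => Nat.casesOn i a z, rfl, h2, fun i hi => ?_⟩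
    cases i with
    | zero => exact (show s.Piece a (z 0) from h1 ▸ h0)
    | succ i => exact h3 i (by omega)

lemma cn_nl_trans {r r' : ℕ} {a b c : Y.V} (h : s.NL r a b) (h' : s.NL r' b c) :
    s.NL (r + r') a c := by
  induction r generalizing a with
  | zero => rw [cn_nl_zero.1 h, zero_add]; exact h'
  | succ r ih =>
    obtain ⟨x, h1, h2⟩ := cn_nl_succ.1 h
    rw [add_right_comm]
    exact cn_nl_succ.2 ⟨x, h1, ih h2⟩

lemma cn_nl_mono {r r' : ℕ} {a b : Y.V} (h : s.NL r a b) (e : r ≤ r') : s.NL r' a b := by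
  obtain ⟨k, rfl⟩ := Nat.exists_eq_add_of_le e
  exact cn_nl_trans h ⟨fun _ => b, rfl, rfl, fun _ _ => Or.inl rfl⟩

lemma cn_nl_lev {r : ℕ} {a b : Y.V} (h : s.NL r a b) : Y.lev a = Y.lev b := by
  induction r generalizing a with
  | zero => rw [cn_nl_zero.1 h]
  | succ r ih =>
    obtain ⟨x, h1, h2⟩ := cn_nl_succ.1 h
    exact (cn_piece_lev h1).trans (ih h2)

lemma cn_nl_dist {a b : Y.V} {C : ℕ} (l : Y.lev a = Y.lev b) (h : Y.dist a b ≤ C) :
    s.NL C a b := by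
  refine cn_nl_mono ?_ h
  refine dir_ind (P := fun a => s.NL (Y.dist a b) a b) (by simp [cn_nl_zero]) (fun e he ih => ?_) l
  rw [he.dist_tgt]
  exact cn_nl_succ.2 ⟨_, Or.inr (Or.inl (adj_dir e)), ih⟩

lemma cn_nl_near {a b a' b' : Y.V} {r C : ℕ} (h : s.NL r a b) (la : Y.lev a = Y.lev a')
    (lb : Y.lev b = Y.lev b') (ha : Y.dist a a' ≤ C) (hb : Y.dist b b' ≤ C) :
    s.NL (r + 2 * C) a' b' :=
  cn_nl_mono (cn_nl_trans (cn_nl_trans (cn_nl_dist la.symm (Forest.dist_comm a a' ▸ ha)) h)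
    (cn_nl_dist lb hb)) (by omega)

/-- contraction for perturbed images -/
lemma cn_contr (hC : St_CONTR) (hd : FC d) (hN : s.NF) (L : ℕ) : ∃ c : ℕ, ∀ R : ℕ, ∃ j : ℕ,
    ∀ n ≥ j, ∀ (r C : ℕ) a b a' b', s.NL (r * R) a b → Y.lev (s.σ^[n] a) = Y.lev a' →
      Y.lev (s.σ^[n] b) = Y.lev b' → Y.dist (s.σ^[n] a) a' ≤ C → Y.dist (s.σ^[n] b) b' ≤ C →
      s.NoLeg L a' b' → s.NL (r * c + 2 * C) a' b' := by
  obtain ⟨c, hc⟩ := hC G d hd Y s hN L
  refine ⟨c, fun R => ?_⟩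
  obtain ⟨j, hj⟩ := hc R
  refine ⟨j, fun n hn r C a b a' b' h la lb ha hb hL => ?_⟩
  have l := s.lev_iter_eq n (cn_nl_lev h)
  obtain ⟨x, hx⟩ := exists_med l la
  obtain ⟨y, hy⟩ := exists_med l (l.trans lb)
  have h1 : s.NL (r * c) x y := by
    by_cases e : x = y
    · exact cn_nl_mono (cn_nl_zero.2 e) (Nat.zero_le _)
    · obtain ⟨p1, p2⟩ := hx.piece hy e
      exact hj n hn r a b x y h hx.1 hy.1 fun u v hu hv t =>
        hL u v (p1.convex p2 hu) (p1.convex p2 hv) t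
  exact cn_nl_near h1 hx.2.2.lev2 hy.2.1.lev2 (hx.2.2.dist_le'.trans ha) (hy.2.1.dist_le'.trans hb)

lemma cn_descend (P : ℕ → Prop) (hm : ∀ m m', m ≤ m' → P m → P m') (A B : ℕ)
    (hs : ∀ r, P (r * (2 * A + 1)) → P (r * A + B)) (m : ℕ) (h : P m) : P (2 * A + 2 * B + 1) := by
  induction m using Nat.strong_induction_on with
  | _ m ih =>
    by_cases e : m ≤ 2 * A + 2 * B + 1
    · exact hm _ _ e h
    have h1 := Nat.div_add_mod m (2 * A + 1)
    have h2 := Nat.mod_lt m (show 0 < 2 * A + 1 by omega)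
    generalize m / (2 * A + 1) = k at h1
    have h3 : (2 * A + 1) * k = 2 * (k * A) + k := by ring
    have h4 : (k + 1) * A = k * A + A := by ring
    have h5 : (k + 1) * (2 * A + 1) = 2 * (k * A) + k + (2 * A + 1) := by ring
    exact ih ((k + 1) * A + B) (by omega) (hs (k + 1) (hm _ _ (by omega) h))

/-- images of Nielsen runs have no long legal segments -/
lemma cn_noleg (hP : St_PULL) (hd : FC d) (X : Pair d d') (hs : X.s.NF) (ht : X.t.NF) :
    ∃ L, ∀ z w, X.t.Cls z w → X.s.NoLeg L (X.h.f z) (X.h.f w) := by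
  obtain ⟨C, hC⟩ := cn_grow hd hs.toTT
  obtain ⟨C0, h0⟩ := X.symm.exists_round (hd.symm X).surj 1
  obtain ⟨Λ, -, hΛ⟩ := X.h.exists_lip
  have key : ∀ k z w x y, X.t.Cls z w → X.P.btw (X.h.f z) x (X.h.f w) →
      X.P.btw (X.h.f z) y (X.h.f w) → X.s.LegalP x y → 2 * C + 2 * C0 + 1 ≤ X.P.dist x y →
      Λ * X.M.dist z w < X.P.dist x y + k → False := by
    intro k
    induction k with
    | zero =>
      intro z w x y h hx hy _ _ h2
      have := hx.dist_mid hy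
      have := hΛ z w (cn_cls_lev h)
      omega
    | succ k ih =>
      intro z w x y h hx hy hl h1 h2
      have hne : z ≠ w := by
        rintro rfl
        have := hx.dist_mid hy
        simp at this
        omega
      obtain ⟨z0, w0, h3, rfl, rfl⟩ := (hP G d' (hd.symm X) X.M X.t ht z w h).2.2 hne
      have h4 := (hP G d' (hd.symm X) X.M X.t ht z0 w0 h3).1
      have lv : ∀ z, X.P.lev (X.s.σ (X.h.f (X.t.σ z))) = X.P.lev (X.h.f z) := fun z => by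
        simp [X.lev_h]
      obtain ⟨x', y', p1, p2, p3, p4⟩ := hC C0 _ _ x y _ _ hx hy hl (lv z0) (lv w0) (h0 z0) (h0 w0)
      exact ih z0 w0 x' y' h3 p1 p2 p3 (by omega) (by rw [← h4]; omega)
  exact ⟨2 * C + 2 * C0 + 1, fun z w h x y hx hy hl => by
    by_contra e
    exact key (Λ * X.M.dist z w + 1) z w x y h hx hy hl (by omega) (by omega)⟩

lemma cn_iter (hP : St_PULL) (hd : FC d) (hN : s.NF) (n : ℕ) {p q : Y.V} (h : s.Cls p q) :
    Y.dist (s.σ^[n] p) (s.σ^[n] q) = Y.dist p q ∧ s.Cls (s.σ^[n] p) (s.σ^[n] q) := by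
  induction n with
  | zero => exact ⟨rfl, h⟩
  | succ n ih =>
    have := hP G d hd Y s hN _ _ ih.2
    rw [Function.iterate_succ_apply', Function.iterate_succ_apply']
    exact ⟨this.1.trans ih.1, this.2.1⟩

/-- images of Nielsen runs have bounded coned-off length -/
lemma cn_run (hC : St_CONTR) (hP : St_PULL) (hd : FC d) (X : Pair d d') (hs : X.s.NF)
    (ht : X.t.NF) : ∃ K, ∀ z w, X.t.Cls z w → X.s.NL K (X.h.f z) (X.h.f w) := by
  obtain ⟨L, hL⟩ := cn_noleg hP hd X hs ht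
  obtain ⟨c, hc⟩ := cn_contr hC hd hs L
  obtain ⟨n, hn⟩ := hc (2 * c + 1)
  obtain ⟨C, h0⟩ := X.symm.exists_round (hd.symm X).surj n
  obtain ⟨Λ, -, hΛ⟩ := X.h.exists_lip
  refine ⟨2 * c + 2 * (2 * C) + 1, fun z w h => ?_⟩
  refine cn_descend (fun m => ∀ z' w', X.t.Cls z' w' → X.M.dist z' w' = X.M.dist z w →
    X.s.NL m (X.h.f z') (X.h.f w')) (fun m m' e H z' w' h1 h2 => cn_nl_mono (H z' w' h1 h2) e)
    c (2 * C) (fun r H z' w' h1 h2 => ?_) (Λ * X.M.dist z w)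
    (fun z' w' h1 h2 => cn_nl_dist (X.h.lev_eq (cn_cls_lev h1)) (h2 ▸ hΛ _ _ (cn_cls_lev h1)))
    z w h rfl
  obtain ⟨h3, h4⟩ := cn_iter hP (hd.symm X) ht n h1
  have lv : ∀ z, X.P.lev (X.s.σ^[n] (X.h.f (X.t.σ^[n] z))) = X.P.lev (X.h.f z) := fun z => by
    simp [X.lev_h]
  exact hn n le_rfl r C _ _ _ _ (H _ _ h4 (h3.trans h2)) (lv z') (lv w') (h0 z') (h0 w')
    (hL z' w' h1)

theorem stCONE (hC : St_CONTR) (hO : St_OV) (hP : St_PULL) : St_CONE := by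
  intro G _ d d' hd X hs ht
  obtain ⟨K, hK⟩ := cn_run hC hP hd X hs ht
  obtain ⟨N, -, -, hN, -⟩ := hO G d' (hd.symm X) X.M X.t ht
  obtain ⟨Λ, -, hΛ⟩ := X.h.exists_lip
  have one : ∀ x y, X.t.Piece x y → X.s.NL (Λ + K + 2 * (Λ * N)) (X.h.f x) (X.h.f y) := by
    rintro x y (rfl | h | ⟨p, q, h, hx, hy⟩)
    · exact cn_nl_mono (cn_nl_zero.2 rfl) (Nat.zero_le _)
    · have := hΛ x y h.lev
      rw [h.dist] at this
      exact cn_nl_dist (X.h.lev_eq h.lev) (by omega)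
    · obtain ⟨z, z1, z2, z3⟩ := hN p q x h hx
      obtain ⟨w, w1, w2, w3⟩ := hN p q y h hy
      exact cn_nl_mono (cn_nl_near (hK z w ((cn_cls_symm z1).trans w1)) (X.h.lev_eq z2.lev2)
        (X.h.lev_eq w2.lev2) ((hΛ _ _ z2.lev2).trans (Nat.mul_le_mul_left _ z3))
        ((hΛ _ _ w2.lev2).trans (Nat.mul_le_mul_left _ w3))) (by omega)
  refine ⟨Λ + K + 2 * (Λ * N), fun r => ?_⟩
  induction r with
  | zero => intro a b h; rw [cn_nl_zero.1 h, zero_mul, cn_nl_zero]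
  | succ r ih =>
    intro a b h
    obtain ⟨x, h1, h2⟩ := cn_nl_succ.1 h
    rw [add_one_mul, add_comm]
    exact cn_nl_trans (one a x h1) (ih x b h2)

theorem stBI (hC : St_CONTR) (hK : St_CONE) : St_BI := by
  intro G _ d d' hd X hs ht L
  have hd' := hd.symm X
  obtain ⟨K1, h1⟩ := hK G d d' hd X hs ht
  obtain ⟨K2, h2⟩ := hK G d' d hd' X.symm ht hs
  obtain ⟨c1, hc1⟩ := cn_contr hC hd hs L
  obtain ⟨c2, hc2⟩ := cn_contr hC hd' ht L
  obtain ⟨j1, hj1⟩ := hc1 (2 * (c1 * K2 * c2 * K1) + 1)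
  obtain ⟨j2, hj2⟩ := hc2 1
  refine ⟨max j1 j2, fun n hn C => ?_⟩
  obtain ⟨Λ, -, hΛ⟩ := ((X.t.it n).comp X.h').exists_lip
  obtain ⟨C1, hC1⟩ := X.exists_round hd.surj n
  obtain ⟨C2, hC2⟩ := (X.h.comp X.h').exists_disp hd.surj
  refine ⟨2 * (c1 * K2 * c2 * K1) +
    2 * ((2 * C * K2 * c2 + 2 * (Λ * C + C1 + C) + 2 * C) * K1 + 2 * C2) + 1,
    fun a b a' b' u v lab la lb lu lv ha hb hu hv hL hL' => ?_⟩
  refine cn_descend (fun m => X.s.NL m a b) (fun m m' e H => cn_nl_mono H e) _ _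
    (fun r H => ?_) _ (cn_nl_dist lab le_rfl)
  have la' : X.P.lev (X.s.σ^[n] a) = X.P.lev a' := by simp [la]
  have lb' : X.P.lev (X.s.σ^[n] b) = X.P.lev b' := by simp [lb, lab]
  have p1 := h2 _ _ _ (hj1 n (le_of_max_le_left hn) r C a b a' b' H la' lb' ha hb hL)
  have near : ∀ a a' u, X.P.lev (X.s.σ^[n] a) = X.P.lev a' → X.M.lev u = - X.P.lev a →
      X.P.dist (X.s.σ^[n] a) a' ≤ C → X.M.dist (X.h'.f a) u ≤ C →
      X.M.lev (X.t.σ^[n] (X.h'.f a')) = X.M.lev u ∧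
        X.M.dist (X.t.σ^[n] (X.h'.f a')) u ≤ Λ * C + C1 + C := by
    intro a a' u l1 l2 e1 e2
    have q1 : X.M.lev (X.t.σ^[n] (X.h'.f a')) =
        X.M.lev (X.t.σ^[n] (X.h'.f (X.s.σ^[n] a))) := by simp [X.lev_h', ← l1]
    have q2 : X.M.lev (X.t.σ^[n] (X.h'.f (X.s.σ^[n] a))) = X.M.lev (X.h'.f a) := by
      simp [X.lev_h']
    have q3 : X.M.lev (X.h'.f a) = X.M.lev u := by rw [X.lev_h', l2]
    have q4 : X.M.dist (X.t.σ^[n] (X.h'.f a')) (X.t.σ^[n] (X.h'.f (X.s.σ^[n] a))) ≤ _ :=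
      hΛ _ _ l1.symm
    have q5 := hC1 a
    have q6 := dist_triangle q1 (q2.trans q3)
    have q7 := dist_triangle q2 q3
    rw [Forest.dist_comm a'] at q4
    have q8 := Nat.mul_le_mul_left Λ e1
    exact ⟨q1.trans (q2.trans q3), by omega⟩
  obtain ⟨u1, u2⟩ := near a a' u la' lu ha hu
  obtain ⟨v1, v2⟩ := near b b' v lb' (lab ▸ lv) hb hv
  have p2 := hj2 n (le_of_max_le_right hn) _ _ _ _ u v (by rw [mul_one]; exact p1) u1 v1 u2 v2 hL'
  have p3 := cn_nl_near p2 (a' := X.h'.f a) (b' := X.h'.f b) (by rw [X.lev_h', lu])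
    (by rw [X.lev_h', lv, lab]) (Forest.dist_comm u _ ▸ hu) (Forest.dist_comm v _ ▸ hv)
  exact cn_nl_mono (cn_nl_near (h1 _ _ _ p3) (X.lev_hh a) (X.lev_hh b) (hC2 a) (hC2 b))
    (le_of_eq (by ring))

end Pool.Agent.Lib.FBC.T2
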