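import Pool.Agent.Lib.FBC.T2.Contr
import Pool.Agent.Lib.FBC.T2.Cone

/-!
All T2 exports without hypotheses.
-/

namespace Pool.Agent.Lib.FBC.T2

theorem stPULL : St_PULL := fun _ _ _ _ _ _ h _ _ e => pull h.toTT e

theorem cone_holds : St_CONE := stCONE stCONTR stOV stPULL

theorem bi_holds : St_BI := stBI stCONTR cone_holds

end Pool.Agent.Lib.FBC.T2
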