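import Pool.Agent.Lib.FBC.T2.Run

/-!
`St_CONTR`: paths of bounded coned-off length split in bounded time.
-/

namespace Pool.Agent.Lib.FBC.T2

open Forest

variable {G : Type} [Group G] {d : Dg G} {Y : Forest d} {s : Flow Y}
variable {a b p q u v w x y z : Y.V}

/-- paths that split, for all times, into Nielsen runs and legal segments -/
inductive SP (s : Flow Y) : Y.V → Y.V → Prop
  | refl (a : Y.V) : SP s a a
  | step {a u b : Y.V} : s.Legal a u b → s.Cls a u ∨ s.LegalP a u → SP s u b → SP s a b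

lemma SP.lev (h : SP s a b) : Y.lev a = Y.lev b := by
  cases h with
  | refl => rfl
  | step e => exact bt_lev (lg_bt e)

lemma SP.trans (h : SP s a u) (h' : SP s u b) (e : s.Legal a u b) : SP s a b := by
  induction h with
  | refl => exact h'
  | step e1 e2 _ ih =>
    exact .step (fun n => bt_out (e1 n) (e n)) e2 (ih h' fun n => bt_in (e1 n) (e n))

lemma SP.it (T : s.TT) (h : SP s a b) (n : ℕ) : SP s (s.σ^[n] a) (s.σ^[n] b) := by
  induction h with
  | refl => exact .refl _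
  | step e1 e2 _ ih => exact .step (lg_it e1 n) (e2.imp (cls_it T · n) (lp_it T · n)) ih

lemma sp_of_st (T : s.TT) {r : ℕ} {p y q : ℕ → Y.V} (h : s.St r a b p y q) : SP s a b := by
  induction r generalizing a p y q with
  | zero => exact .step (lg_right (h.2.2.1 rfl).1) (Or.inr (h.2.2.1 rfl)) (.refl _)
  | succ r ih =>
    have L := loc_of_st h
    refine .step (u := p 0) (fun n => ?_)
      (Or.inr (lp_left (L.fst r.succ_pos).2 (L.fst r.succ_pos).1))
      (.step (u := q 0) (fun n => ?_) (Or.inl (.single ⟨_, L.inp 0 r.succ_pos⟩)) (ih L.tail.st))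
    · exact let ⟨_, e⟩ := st_it T h n; (st_on e r.succ_pos).1
    · exact let ⟨_, e⟩ := st_it T h n; (e.1 0 r.succ_pos).2.2

lemma piece_lev (h : s.Piece x y) : Y.lev x = Y.lev y := by
  rcases h with rfl | e | ⟨p, q, -, h1, h2⟩
  · rfl
  · exact (adj_ds e).1
  · exact h1.2.1.trans h2.2.1.symm

lemma piece_symm (h : s.Piece x y) : s.Piece y x := by
  rcases h with rfl | ⟨c, β, rfl, rfl⟩ | ⟨p, q, e, h1, h2⟩
  · exact Or.inl rfl
  · exact Or.inr (Or.inl ⟨c, !β, rfl, by simp⟩)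
  · exact Or.inr (Or.inr ⟨p, q, e, h2, h1⟩)

lemma nl_le {r : ℕ} (h : Y.lev a = Y.lev b) (e : Y.dist a b ≤ r) : s.NL r a b :=
  Ch.mono (ch_adj (R := s.Piece) (fun _ _ e => Or.inr (Or.inl e)) h) (Or.inl rfl) e

lemma nl_mono {r r' : ℕ} (h : s.NL r a b) (e : r ≤ r') : s.NL r' a b := Ch.mono h (Or.inl rfl) e

lemma nl_symm {r : ℕ} (h : s.NL r a b) : s.NL r b a :=
  Ch.symm (R := s.Piece) (fun _ _ => piece_symm) h

lemma SP.near (T : s.TT) {L n : ℕ} (hn : L ≤ n) (h : SP s a b)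
    (hy : Y.btw (s.σ^[n] a) y (s.σ^[n] b)) (hL : s.NoLeg L (s.σ^[n] a) y) :
    ∃ z z', s.Cls (s.σ^[n] a) z ∧ Y.btw (s.σ^[n] a) z (s.σ^[n] b) ∧ Y.btw (s.σ^[n] a) z' z ∧
      Y.btw (s.σ^[n] a) z' y ∧ Y.dist z' y ≤ L := by
  induction h with
  | refl a => exact ⟨_, _, .refl, bt_left rfl, bt_left rfl, bt_left hy.1, by simp [bt_self hy]⟩
  | @step a u b e1 e2 _ ih =>
    have e3 : s.Cls a u ∨ (s.LegalP a u ∧ a ≠ u) := by
      by_cases e : a = u
      · exact Or.inl (e ▸ .refl)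
      · exact e2.imp id fun l => ⟨l, e⟩
    rcases e3 with c | ⟨l, hne⟩
    · rcases bt_total hy (e1 n) with o | o
      · exact ⟨_, y, cls_it T c n, e1 n, o, bt_right hy.1, by simp⟩
      · obtain ⟨z, z', k1, k2, k3, k4, k5⟩ := ih (bt_in o hy) (nl_sub hL o (bt_right hy.1))
        exact ⟨z, z', (cls_it T c n).trans k1, bt_out' (e1 n) k2,
          bt_out' (bt_in' (e1 n) k2) k3, bt_out' o k4, k5⟩
    · refine ⟨_, _, .refl, bt_left (bt_lev hy), bt_left rfl, bt_left hy.1, ?_⟩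
      rcases bt_total hy (e1 n) with o | o
      · exact (hL _ _ (bt_left hy.1) (bt_right hy.1) (lp_left (lp_it T l n) o)).le
      · have := hL _ _ (bt_left hy.1) o (lp_it T l n)
        have := exp_lt T l hne n
        omega

lemma SP.nl (T : s.TT) {L n : ℕ} (hn : L ≤ n) (h : SP s a b)
    (hx : Y.btw (s.σ^[n] a) x (s.σ^[n] b)) (hy : Y.btw (s.σ^[n] a) y (s.σ^[n] b))
    (hL : s.NoLeg L x y) : s.NL (2 * L + 1) x y := by
  wlog o : Y.btw (s.σ^[n] a) x y generalizing x y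
  · exact nl_symm (this hy hx (nl_sub hL (bt_right (hx.2.1.trans hy.2.1.symm))
      (bt_left (hx.2.1.trans hy.2.1.symm))) ((bt_total hx hy).resolve_left o))
  induction h with
  | refl a => rw [bt_self hx, bt_self hy]; exact nl_le rfl (by simp)
  | @step a u b e1 e2 h ih =>
    rcases bt_split (e1 n) hx with c | c
    swap
    · exact ih c (bt_out' c (bt_in o hy)) (bt_in' c (bt_in o hy))
    rcases bt_total hy (e1 n) with c' | c'
    · rcases e2 with e2 | e2
      · exact nl_mono (Ch.one (Or.inr (Or.inr ⟨_, _, cls_it T e2 n, c, c'⟩))) (by omega)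
      · have := hL _ _ (bt_left o.2.1) (bt_right o.2.1) (lp_sub (lp_it T e2 n) c c')
        exact nl_le o.2.1 (by omega)
    have m := bt_in c c'
    obtain ⟨z, z', k1, k2, k3, k4, k5⟩ := h.near T hn (bt_in c' hy) (nl_sub hL m (bt_right o.2.1))
    have k6 : s.NL L z' y := nl_le k4.2.1 k5
    rcases e2 with e2 | e2
    · have k7 := bt_in' (e1 n) k2
      exact nl_mono (Ch.trans (Ch.one (Or.inr (Or.inr ⟨_, _, (cls_it T e2 n).trans k1,
        bt_out c k7, bt_out' k7 k3⟩))) k6) (by omega)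
    · have := hL _ _ (bt_left o.2.1) m (lp_right (lp_it T e2 n) c)
      exact nl_mono (Ch.trans (Ch.snoc (nl_le m.1 this.le)
        (Or.inr (Or.inr ⟨_, _, k1, bt_left k2.1, k3⟩))) k6) (by omega)

/-- concatenations of `k` runs and `k + 1` paths with few illegal turns -/
def Mix (s : Flow Y) (A : Y.V → Prop) (I : ℕ) : ℕ → Y.V → Y.V → Prop
  | 0, a, b => s.IL I a b
  | k + 1, a, b => ∃ u v, s.IL I a u ∧ s.Cls u v ∧ A u ∧ Mix s A I k v b

variable {A : Y.V → Prop} {I I' J k : ℕ}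

lemma Mix.mono (h : Mix s A I k a b) (e : I ≤ I') : Mix s A I' k a b := by
  induction k generalizing a with
  | zero => exact il_mono h e
  | succ k ih => exact let ⟨u, v, h1, h2, h3, h4⟩ := h; ⟨u, v, il_mono h1 e, h2, h3, ih h4⟩

lemma Mix.pre (h' : s.IL J w a) (h : Mix s A I k a b) : Mix s A (J + I) k w b := by
  cases k with
  | zero => exact Ch.trans h' h
  | succ k =>
    exact let ⟨u, v, h1, h2, h3, h4⟩ := h; ⟨u, v, Ch.trans h' h1, h2, h3, h4.mono (by omega)⟩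

lemma Mix.lev (h : Mix s A I k a b) : Y.lev a = Y.lev b := by
  induction k generalizing a with
  | zero => exact il_lev h
  | succ k ih =>
    exact let ⟨u, v, h1, h2, h3, h4⟩ := h; ((il_lev h1).trans (cls_lev h2)).trans (ih h4)

lemma Mix.all (h : Mix s A I k a b) : Mix s (fun _ => True) I k a b := by
  induction k generalizing a with
  | zero => exact h
  | succ k ih => exact let ⟨u, v, h1, h2, h3, h4⟩ := h; ⟨u, v, h1, h2, trivial, ih h4⟩

lemma Mix.avoid (w : Y.V) (h : Mix s (fun _ => True) I k a b) :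
    Mix s (fun u => ¬ s.Cls w u) I k a b ∨
      ∃ v k', k = k' + 1 ∧ s.Cls w v ∧ Mix s (fun _ => True) I k' v b := by
  induction k generalizing a with
  | zero => exact Or.inl h
  | succ k ih =>
    obtain ⟨u, v, h1, h2, -, h4⟩ := h
    by_cases c : s.Cls w u
    · exact Or.inr ⟨v, k, rfl, c.trans h2, h4⟩
    rcases ih h4 with e | ⟨v', k', rfl, e1, e2⟩
    · exact Or.inl ⟨u, v, h1, h2, c, e⟩
    · exact Or.inr ⟨v', _, rfl, e1, v', v', il_le rfl (by simp), .refl, trivial, e2⟩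

section
variable {N : ℕ} (T : s.TT) (hN : ∀ p y q, s.INP p y q → Y.dist p q ≤ N)
include T hN

lemma mix_of_nl (R : ℕ) : ∃ I, ∀ a b, s.NL R a b → Mix s (fun _ => True) I R a b := by
  induction R with
  | zero => exact ⟨0, fun _ _ h => ch_zero.2 (ch_zero.1 h)⟩
  | succ R ih =>
    obtain ⟨I, hI⟩ := ih
    refine ⟨N + 1 + I, fun a b h => ?_⟩
    obtain ⟨x, h1, h2⟩ := ch_succ'.1 h
    have h3 := hI _ _ h2
    have : ∃ u v, s.IL (N + 1) a u ∧ s.Cls u v ∧ s.IL (N + 1) v x := by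
      rcases h1 with rfl | e | ⟨p, q, e, k1, k2⟩
      · exact ⟨a, a, il_le rfl (by simp), .refl, il_le rfl (by simp)⟩
      · exact ⟨a, a, il_le rfl (by simp), .refl, il_le (adj_ds e).1 (by rw [(adj_ds e).2]; omega)⟩
      · obtain ⟨u, u1, u2, u3⟩ := cls_dense T hN e k1
        obtain ⟨v, v1, v2, v3⟩ := cls_dense T hN e k2
        exact ⟨u, v, il_le u2.2.1.symm (by rw [ds_comm]; omega), (cls_symm u1).trans v1,
          il_le v2.2.1 (by omega)⟩
    obtain ⟨u, v, k1, k2, k3⟩ := this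
    exact ⟨u, v, il_mono k1 (by omega), k2, trivial, h3.pre k3⟩

lemma il_proj {m m' : Y.V} (c : s.Cls p q) (h : s.IL I a b) (hm : Pr p q a m)
    (hm' : Pr p q b m') : Y.dist m m' ≤ I * (2 * N + 1) := by
  rcases hm.two hm' with rfl | e
  · simp
  · exact il_short (il_sub h e.1 e.2) (nl_sub (cls_noleg T hN c) hm.1 hm'.1)

/-- the projection to a run of a path that avoids its class is bounded at all times -/
lemma mix_proj {n : ℕ} {m m' : Y.V} (hw : Fix s w) (c : s.Cls (s.σ^[n] w) q)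
    (h : Mix s (fun u => ¬ s.Cls w u) I k a b) (hm : Pr (s.σ^[n] w) q (s.σ^[n] a) m)
    (hm' : Pr (s.σ^[n] w) q (s.σ^[n] b) m') :
    Y.dist m m' ≤ (k + 1) * ((I + 1) * (2 * N + 1)) := by
  induction k generalizing a m with
  | zero =>
    have := il_proj T hN c (il_it T h n) hm hm'
    rw [zero_add, one_mul, add_mul]; omega
  | succ k ih =>
    obtain ⟨u, v, h1, h2, h3, h4⟩ := h
    have l1 := (bt_lev hm.2.2).trans (lev_it n (il_lev h1))
    obtain ⟨m1, p1⟩ := ex_pr (cls_lev c) l1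
    obtain ⟨m2, p2⟩ := ex_pr (cls_lev c) (l1.trans (lev_it n (cls_lev h2)))
    have d1 := il_proj T hN c (il_it T h1 n) hm p1
    have d2 : Y.dist m1 m2 ≤ 2 * N + 1 := by
      rcases p1.two p2 with rfl | e
      · simp
      by_cases e' : u = v
      · subst e'; rw [bt_self e.1, bt_self e.2]; simp
      by_contra e''
      exact h3 (cls_back hw (cls_fix' h2 e') n
        (cls_over T hN c (cls_it T h2 n) p1.1 p2.1 e.1 e.2 (by omega)))
    have d3 := ih h4 p2
    have := ds_tri (hm.1.2.1.trans p1.1.2.1.symm) (p1.1.2.1.trans hm'.1.2.1.symm)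
    have := ds_tri (p1.1.2.1.trans p2.1.2.1.symm) (p2.1.2.1.trans hm'.1.2.1.symm)
    rw [add_mul (k + 1), one_mul, add_mul I, one_mul] at *
    omega

lemma cls_cut {D : ℕ} (c : s.Cls u v) (e : D + N ≤ Y.dist u v) :
    ∃ z, s.Cls u z ∧ Y.btw u z v ∧ D ≤ Y.dist u z ∧ Y.dist u z ≤ D + N := by
  obtain ⟨x, h1, h2⟩ := ex_at (cls_lev c) e
  obtain ⟨z, k1, k2, k3⟩ := cls_dense T hN c h1
  have := bt_ds k2
  exact ⟨z, k1, bt_out k2 h1, by omega, by omega⟩

end

lemma sp_il (h : s.NF) (I : ℕ) : ∃ j, ∀ a b, s.IL I a b → SP s (s.σ^[j] a) (s.σ^[j] b) :=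
  let ⟨j, hj⟩ := stab h I
  ⟨j, fun a b e => let ⟨_, _, _, _, _, k⟩ := hj a b e; sp_of_st h.toTT k⟩

lemma sp_mix (h : s.NF) (k I : ℕ) :
    ∃ j, ∀ a b, Mix s (fun _ => True) I k a b → SP s (s.σ^[j] a) (s.σ^[j] b) := by
  have T := h.toTT
  obtain ⟨N, hN⟩ := inp_bound h
  induction k generalizing I with
  | zero => exact sp_il h I
  | succ k ih =>
    obtain ⟨D, hD⟩ : ∃ D, D = (k + 1) * ((I + 1) * (2 * N + 1)) := ⟨_, rfl⟩
    obtain ⟨j1, h1⟩ := ih (I + 2 * (D + N) + I)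
    obtain ⟨j2, h2⟩ := sp_il h (I + (D + N))
    have h1' : ∀ a b, Mix s (fun _ => True) (I + 2 * (D + N) + I) k a b →
        SP s (s.σ^[j2 + j1] a) (s.σ^[j2 + j1] b) := fun a b e => by
      simpa only [Function.iterate_add_apply] using (h1 a b e).it T j2
    refine ⟨j2 + j1, fun a b ⟨u, v, e1, e2, _, e3⟩ => ?_⟩
    rcases e3.avoid u with e4 | ⟨v', k', rfl, e4, e5⟩
    swap
    · exact h1' _ _ (Mix.mono ⟨u, v', e1, e4, trivial, e5⟩ (by omega))
    by_cases c : Y.dist u v ≤ 2 * (D + N)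
    · exact h1' _ _ (e3.pre (Ch.trans e1 (il_le (cls_lev e2) c)))
    obtain ⟨z, z1, z2, z3, z4⟩ := cls_cut T hN (D := D) e2 (by omega)
    obtain ⟨w, w1, w2, w3, w4⟩ := cls_cut T hN (D := D) (cls_symm e2) (by rw [ds_comm]; omega)
    have w5 := e2.trans w1
    have hu : Fix s u := cls_fix' e2 (by rintro rfl; simp at c)
    have key : ∀ n, Y.btw (s.σ^[n] a) (s.σ^[n] z) (s.σ^[n] b) ∧
        Y.btw (s.σ^[n] z) (s.σ^[n] w) (s.σ^[n] b) := by
      intro n
      have c0 := cls_it T e2 n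
      have l := cls_lev c0
      obtain ⟨m, pm⟩ := ex_pr l (l.symm.trans (lev_it n (il_lev e1)).symm)
      obtain ⟨m', pm'⟩ := ex_pr l (lev_it n e3.lev)
      have d1 := il_proj T hN c0 (il_it T e1 n) pm ⟨bt_left l, bt_left rfl, bt_right l.symm⟩
      have d2 := mix_proj T hN hu c0 e4 ⟨bt_right l, bt_right l, bt_left rfl⟩ pm'
      have d3 : I * (2 * N + 1) ≤ D := by
        rw [hD]; exact (Nat.mul_le_mul_right _ I.le_succ).trans (Nat.le_mul_of_pos_left _ k.succ_pos)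
      have b1 := cls_lg T z1 ((cls_symm z1).trans e2) z2 n
      have b2 := cls_lg T w5 (cls_symm w1) (bt_symm w2) n
      have := cls_ds_it T z1 n; have := cls_ds_it T e2 n; have := cls_ds_it T (cls_symm w1) n
      have := bt_ds b2; have := bt_ds pm'.1
      rw [ds_comm] at d1 d2 w3 w4
      have b3 := bt_of_pos b1 b2 pm'.1 (by omega) (by omega)
      have b4 := bt_of_pos pm.1 b1 pm'.1 (by omega) (by omega)
      rcases pm.two pm' with rfl | e
      · omega
      exact ⟨bt_conv e.1 e.2 b4, bt_out b3 (pm'.bt b1)⟩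
    refine SP.trans (u := s.σ^[j2 + j1] z) ?_ (.step (lg_it (fun n => (key n).2) _)
      (Or.inl (cls_it T ((cls_symm z1).trans w5) _)) (h1' _ _ ?_)) (lg_it (fun n => (key n).1) _)
    · have := (h2 a z (Ch.trans e1 (il_le z2.1 z4))).it T j1
      rwa [← Function.iterate_add_apply, ← Function.iterate_add_apply, add_comm] at this
    · exact (e3.pre (il_le (r := D + N) w2.1.symm (ds_comm v w ▸ w4))).mono (by omega)

/-- paths of bounded coned-off length split in bounded time -/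
lemma sp_nl (h : s.NF) (R : ℕ) : ∃ j, ∀ a b, s.NL R a b → SP s (s.σ^[j] a) (s.σ^[j] b) := by
  obtain ⟨N, hN⟩ := inp_bound h
  obtain ⟨I, hI⟩ := mix_of_nl h.toTT hN R
  obtain ⟨j, hj⟩ := sp_mix h R I
  exact ⟨j, fun a b e => hj a b (hI a b e)⟩

theorem stCONTR : St_CONTR := fun _ _ _ _ Y s h L => ⟨2 * L + 1, fun R => by
  obtain ⟨j, hj⟩ := sp_nl h R
  refine ⟨L + j, fun n hn r a b x y e hx hy hL => ?_⟩
  obtain ⟨t, rfl⟩ : ∃ t, n = t + j := ⟨n - j, by omega⟩
  have c1 : Ch (fun U V => Y.lev U = Y.lev V ∧ ∀ x y, Y.btw U x V → Y.btw U y V → s.NoLeg L x y →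
      s.NL (2 * L + 1) x y) r (s.σ^[t + j] a) (s.σ^[t + j] b) :=
    (Ch.group (R := s.Piece) e).map _ fun u v k => by
      have := hj u v k
      simp only [Function.iterate_add_apply]
      exact ⟨lev_it t this.lev, fun _ _ => this.nl h.toTT (by omega)⟩
  exact (ch_sub (S := s.NL (2 * L + 1)) (fun _ _ e => e.1) (fun _ _ => nl_symm)
    (fun _ _ => nl_le rfl (by simp))
    (fun _ _ _ _ e h1 h2 h3 h4 => e.2 _ _ h1 h2 (nl_sub hL h3 h4)) c1 hx hy).bind id
    fun _ _ e => e⟩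

end Pool.Agent.Lib.FBC.T2
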