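import Pool.Agent.Lib.FBC.T2.Stab

/-!
Nielsen classes: `St_RUN`, `St_OV`, images and preimages of classes.
-/

namespace Pool.Agent.Lib.FBC.T2

open Forest

variable {G : Type} [Group G] {d : Dg G} {Y : Forest d} {s : Flow Y}
variable {a b p q u v w x y z p' q' y' : Y.V}

lemma inp_D (T : s.TT) (h : s.INP z y p) {γ : G} (h1 : s.σ z = γ • z) (h2 : s.σ p = γ • p)
    {e : Y.Dir} (he : First z y e) : s.f.D e (e.tr γ) := by
  have k := lp_bt h.2.1 (first_bt he)
  have a := first_adj he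
  obtain ⟨f, hf⟩ := exists_First k.1 (exp_ne T (lp_adj a) (by
    intro e'; have := (adj_ds a).2; simp [← e'] at this) 1)
  have k2 := he.tr γ
  rw [← h1] at k2
  rw [← (hf.mono (bt_sub k)).unique (k2.mono (bt_sub (inp_apex T h h1 h2).1))]
  unfold Hom.D
  rw [he.1]; exact hf

lemma tr_tr (g g' : G) (e : Y.Dir) : (e.tr g').tr g = e.tr (g * g') := by
  simp [Dir.tr, mul_smul]

lemma not_bt_first {e : Y.Dir} (h : First z y e) (h' : First z y' e) : ¬ Y.btw y z y' := fun k => by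
  have h1 := sd_ne_of_mem h.2
  have h2 := sd_ne_of_mem h'.2
  have h3 := k.2.2 e.1
  revert h1 h2 h3
  cases e.1.sd y <;> cases e.1.sd z <;> cases e.1.sd y' <;> simp

lemma turn_step (T : s.TT) (h : s.INP z y p) (h' : s.INP z y' q) (k : Y.btw y z y') :
    ∃ u u', s.INP (s.σ z) u (s.σ p) ∧ s.INP (s.σ z) u' (s.σ q) ∧ Y.btw u (s.σ z) u' ∧
      Y.btw (s.σ z) u (s.σ y) ∧ Y.btw (s.σ z) u' (s.σ y') := by
  obtain ⟨γ, h1, h2⟩ := h.2.2.2.2
  obtain ⟨γ', h3, h4⟩ := h'.2.2.2.2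
  have a1 := (inp_apex T h h1 h2).1
  have a2 := (inp_apex T h' h3 h4).1
  refine ⟨γ • y, γ' • y', by rw [h1, h2]; exact inp_smul γ h, by rw [h3, h4]; exact inp_smul γ' h',
    ?_, a1, a2⟩
  obtain ⟨e, he⟩ := exists_First h.1.1 (inp_ne h)
  obtain ⟨e', he'⟩ := exists_First h'.1.1 (inp_ne h')
  have f1 := he.tr γ
  have f2 := he'.tr γ'
  rw [← h1] at f1
  rw [← h3] at f2
  refine (first_or f1 a2.1).resolve_left fun f3 => ?_
  have e1 := f3.unique f2
  have e2 : e' = e.tr (γ'⁻¹ * γ) := by rw [← tr_tr, e1, tr_tr]; simp [Dir.tr]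
  have d1 := (inp_D T h h1 h2 he).tr (γ'⁻¹ * γ)
  rw [← e2] at d1
  have e3 := d1.unique (inp_D T h' h3 h4 he')
  rw [← e1, tr_tr] at e3
  have e4 : γ'⁻¹ * γ = 1 := by simpa using tr_inj e3
  rw [e4] at e2
  have : e' = e := by simpa [Dir.tr] using e2
  exact not_bt_first he (this ▸ he') k

/-- the turn between two consecutive Nielsen paths is legal -/
lemma turn_lg (T : s.TT) (h : s.INP z y p) (h' : s.INP z y' q) (k : Y.btw y z y') :
    s.Legal y z y' := by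
  have key : ∀ n, ∃ u u', s.INP (s.σ^[n] z) u (s.σ^[n] p) ∧ s.INP (s.σ^[n] z) u' (s.σ^[n] q) ∧
      Y.btw u (s.σ^[n] z) u' ∧ Y.btw (s.σ^[n] z) u (s.σ^[n] y) ∧
      Y.btw (s.σ^[n] z) u' (s.σ^[n] y') := by
    intro n
    induction n with
    | zero => exact ⟨y, y', h, h', k, bt_right h.1.1, bt_right h'.1.1⟩
    | succ n ih =>
      obtain ⟨u, u', k1, k2, k3, k4, k5⟩ := ih
      obtain ⟨v, v', j1, j2, j3, j4, j5⟩ := turn_step T k1 k2 k3
      simp only [Function.iterate_succ_apply']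
      exact ⟨v, v', j1, j2, j3, bt_out j4 (lp_bt (lp_it T h.2.1 n) k4),
        bt_out j5 (lp_bt (lp_it T h'.2.1 n) k5)⟩
  intro n
  obtain ⟨u, u', k1, k2, k3, k4, k5⟩ := key n
  exact bt_four (bt_four' (bt_symm k4) k3 (inp_ne k1).symm) k5 (inp_ne k2)

/-- two points with the same translation are not joined by a legal path -/
lemma fix_not_lp (T : s.TT) {γ : G} (h1 : s.σ p = γ • p) (h2 : s.σ q = γ • q) (hne : p ≠ q) :
    ¬ s.LegalP p q := fun l => by
  have := exp_σ T l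
  rw [h1, h2, ds_smul] at this
  have := ds_pos l.1 hne
  omega

/-- overlapping Nielsen paths merge -/
lemma inp_merge (T : s.TT) (h : s.INP z y p) (h' : s.INP z y' q) (k : ¬ Y.btw y z y') :
    p = q ∨ ∃ m, s.INP p m q := by
  obtain ⟨γ, h1, h2⟩ := h.2.2.2.2
  obtain ⟨γ', h3, h4⟩ := h'.2.2.2.2
  obtain ⟨e, he⟩ := exists_First h.1.1 (inp_ne h)
  have he' := (first_or he h'.1.1).resolve_right k
  obtain rfl : γ = γ' := tr_inj ((inp_D T h h1 h2 he).unique (inp_D T h' h3 h4 he'))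
  refine (em (p = q)).imp id fun hne => ?_
  have n0 : z ≠ e.tgt := by
    intro e'; have := (adj_ds (first_adj he)).2; simp [← e'] at this
  set n := Y.dist z y + Y.dist z y'
  have a1 := inp_absorb T h (first_bt he) n0 (n := n) (by omega)
  have a2 := inp_absorb T h' (first_bt he') n0 (n := n) (by omega)
  have l1 := lp_right (lp_it T h.2.2.1 n) a1
  have l2 := lp_right (lp_it T h'.2.2.1 n) a2
  obtain ⟨m, m1, m2, m3⟩ := ex_med l1.1.symm l2.1
  have l3 := lp_left (lp_symm l1) m1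
  have l4 := lp_right l2 m2
  rw [fix_it h2] at m3 l3
  rw [fix_it h4] at m3 l4
  refine ⟨(γ ^ n)⁻¹ • m, by simpa using bt_smul (γ ^ n)⁻¹ m3, by simpa using lp_smul (γ ^ n)⁻¹ l3,
    by simpa using lp_smul (γ ^ n)⁻¹ l4, fix_not_lp T h2 h4 hne, γ, h2, h4⟩

/-- a run of Nielsen paths through the class points `z i` with apexes `y i` -/
def Rn (s : Flow Y) (r : ℕ) (z y : ℕ → Y.V) : Prop :=
  s.St r (z 0) (z r) z y fun i => z (i + 1)

lemma ex_run (T : s.TT) (h : s.Cls a b) : ∃ r z y, z 0 = a ∧ z r = b ∧ Rn s r z y := by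
  classical
  have ex := ch_of_rtg h
  obtain ⟨z, h0, h1, hz⟩ := Nat.find_spec ex
  have hm := fun k => Nat.find_min ex (m := k)
  generalize Nat.find ex = r at *
  have : ∀ i, ∃ y, i < r → s.INP (z i) y (z (i + 1)) := fun i => by
    by_cases hi : i < r
    · exact let ⟨y, e⟩ := hz i hi; ⟨y, fun _ => e⟩
    · exact ⟨a, fun e => (hi e).elim⟩
  choose y hy using this
  refine ⟨r, z, y, h0, h1, Loc.st ⟨hy, fun i hi => ?_, fun e => e ▸ lp_refl _,
    fun hr => ⟨bt_left (hy 0 hr).1.1, (hy 0 hr).2.1⟩, fun hr => ?_⟩⟩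
  · have k1 := inp_symm (hy i (by omega))
    have k2 := hy (i + 1) hi
    have c1 := ch_seg (R := fun a b => ∃ y, s.INP a y b) (z := z) hz (i := 0) (k := i) (by omega)
    have c2 := ch_seg (R := fun a b => ∃ y, s.INP a y b) (z := z) hz (i := i + 2)
      (k := r - (i + 2)) (by omega)
    rw [zero_add, h0] at c1
    rw [show i + 2 + (r - (i + 2)) = r by omega, h1] at c2
    have o : Y.btw (y i) (z (i + 1)) (y (i + 1)) := by
      by_contra o
      rcases inp_merge T k1 k2 o with e | e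
      · exact hm _ (by omega) (c1.trans (e ▸ c2))
      · exact hm _ (by omega) ((c1.snoc e).trans c2)
    exact ⟨o, bt_left k2.1.1, lp_cat (lp_symm k1.2.1) k2.2.1 (turn_lg T k1 k2 o)⟩
  · obtain ⟨k, rfl⟩ : ∃ k, r = k + 1 := ⟨r - 1, by omega⟩
    exact ⟨bt_right (hy k (by omega)).1.2.1, (hy k (by omega)).2.2.1⟩

theorem stRUN : St_RUN := fun _ _ _ _ _ _ h a b e hne => by
  obtain ⟨r, z, y, rfl, rfl, k⟩ := ex_run h.toTT e
  have : 0 < r := Nat.pos_of_ne_zero (by rintro rfl; exact hne rfl)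
  exact ⟨r, z, y, _, this, k, rfl, by simp [Nat.sub_add_cancel this], fun _ _ => rfl⟩

lemma cls_symm (h : s.Cls a b) : s.Cls b a := by
  induction h with
  | refl => exact .refl
  | tail _ e ih => exact let ⟨y, e⟩ := e; .head ⟨y, inp_symm e⟩ ih

lemma cls_lev (h : s.Cls a b) : Y.lev a = Y.lev b := by
  induction h with
  | refl => rfl
  | tail _ e ih => exact let ⟨_, e⟩ := e; ih.trans (bt_lev e.1)

lemma cls_σ (T : s.TT) (h : s.Cls a b) : s.Cls (s.σ a) (s.σ b) := by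
  induction h with
  | refl => exact .refl
  | tail _ e ih => exact let ⟨_, e⟩ := e; let ⟨m, k, _⟩ := inp_next T e; ih.tail ⟨m, k⟩

lemma cls_it (T : s.TT) (h : s.Cls a b) (n : ℕ) : s.Cls (s.σ^[n] a) (s.σ^[n] b) := by
  induction n generalizing a b with
  | zero => exact h
  | succ n ih => exact ih (cls_σ T h)

lemma cls_smul (g : G) (h : s.Cls a b) : s.Cls (g • a) (g • b) := by
  induction h with
  | refl => exact .refl
  | tail _ e ih => exact let ⟨_, e⟩ := e; ih.tail ⟨_, inp_smul g e⟩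

section
variable {r : ℕ} {z y : ℕ → Y.V}

lemma Rn.inp (h : Rn s r z y) {i : ℕ} (hi : i < r) : s.INP (z i) (y i) (z (i + 1)) := (h.1 i hi).1

lemma Rn.cls (h : Rn s r z y) {i : ℕ} (hi : i ≤ r) : s.Cls (z 0) (z i) := by
  induction i with
  | zero => exact .refl
  | succ i ih => exact (ih (by omega)).tail ⟨_, h.inp hi⟩

lemma Rn.on (h : Rn s r z y) {i : ℕ} (hi : i ≤ r) : Y.btw (z 0) (z i) (z r) := by
  rcases hi.eq_or_lt with rfl | e
  · exact bt_right (cls_lev (h.cls le_rfl))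
  · exact (st_on h e).1

lemma Rn.step (h : Rn s r z y) {i : ℕ} (hi : i < r) :
    Y.dist (z 0) (z i) + Y.dist (z i) (z (i + 1)) = Y.dist (z 0) (z (i + 1)) :=
  bt_ds (h.1 i hi).2.1

lemma Rn.loc (h : Rn s r z y) {x : Y.V} (hx : Y.btw (z 0) x (z r)) :
    x = z r ∨ ∃ i < r, Y.dist (z 0) (z i) ≤ Y.dist (z 0) x ∧
      Y.dist (z 0) x < Y.dist (z 0) (z (i + 1)) := by
  have key : ∀ k, Y.dist (z 0) (z k) ≤ Y.dist (z 0) x ∨ ∃ i < k,
      Y.dist (z 0) (z i) ≤ Y.dist (z 0) x ∧ Y.dist (z 0) x < Y.dist (z 0) (z (i + 1)) := by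
    intro k
    induction k with
    | zero => simp
    | succ k ih =>
      rcases ih with e | ⟨i, hi, e⟩
      · exact (le_or_gt _ _).imp id fun e' => ⟨k, by omega, e, e'⟩
      · exact Or.inr ⟨i, by omega, e⟩
  refine (key r).imp (fun e => ?_) id
  have := bt_ds hx
  exact ds_zero hx.2.1 (by omega)

lemma Rn.ds (T : s.TT) (h : Rn s r z y) : Y.dist (s.σ (z 0)) (s.σ (z r)) = Y.dist (z 0) (z r) := by
  obtain ⟨y', h'⟩ := st_next T h
  have key : ∀ i ≤ r, Y.dist (s.σ (z 0)) (s.σ (z i)) = Y.dist (z 0) (z i) := by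
    intro i hi
    induction i with
    | zero => simp
    | succ i ih =>
      obtain ⟨γ, e1, e2⟩ := (h.inp hi).2.2.2.2
      have := Rn.step (z := fun i => s.σ (z i)) h' hi
      rw [← this, ← h.step hi, ih (by omega), e1, e2, ds_smul]
  exact key r le_rfl

/-- a segment of a run around an apex is not legal -/
lemma Rn.not_lp (T : s.TT) (h : Rn s r z y) {i : ℕ} (hi : i < r) {u v : Y.V}
    (hu : Y.btw (z 0) u (z r)) (hv : Y.btw (z 0) v (z r))
    (h1 : Y.dist (z 0) u < Y.dist (z 0) (y i)) (h2 : Y.dist (z 0) (y i) < Y.dist (z 0) v) :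
    ¬ s.LegalP u v := fun l => by
  obtain ⟨k1, k2, k3, k4, k5⟩ := st_on h hi
  have k := h.inp hi
  have l1 : s.LegalP (z i) v := by
    rcases le_or_gt (Y.dist (z 0) u) (Y.dist (z 0) (z i)) with o | o
    · exact lp_right l (bt_of_pos hu k1 hv o (by omega))
    · exact lp_over T k.2.1 l (bt_of_pos k1 hu k2 o.le h1.le) (bt_of_pos hu k2 hv h1.le h2.le)
        (by rintro rfl; omega)
  refine k.2.2.2.1 ?_
  rcases le_or_gt (Y.dist (z 0) (z (i + 1))) (Y.dist (z 0) v) with o | o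
  · exact lp_left l1 (bt_of_pos k1 k3 hv (by omega) o)
  · exact lp_over T l1 k.2.2.1 (bt_of_pos k1 k2 hv k4.le h2.le) (bt_of_pos k2 hv k3 h2.le o.le)
      (by rintro rfl; omega)

/-- a long segment of a run contains a whole Nielsen path of the run -/
lemma Rn.inside (h : Rn s r z y) {N : ℕ} (hN : ∀ p y q, s.INP p y q → Y.dist p q ≤ N) {x : Y.V}
    (hx : Y.btw (z 0) x (z r)) (e : Y.dist (z 0) x + N < Y.dist (z 0) (z r)) : ∃ i < r,
    Y.dist (z 0) x < Y.dist (z 0) (z i) ∧ Y.dist (z 0) (z (i + 1)) ≤ Y.dist (z 0) x + 2 * N := by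
  rcases h.loc hx with rfl | ⟨i, hi, e1, e2⟩
  · omega
  have := h.step hi
  have := hN _ _ _ (h.inp hi)
  have hi' : i + 1 < r := lt_of_le_of_ne hi (by rintro rfl; omega)
  have := h.step hi'
  have := hN _ _ _ (h.inp hi')
  exact ⟨i + 1, hi', e2, by omega⟩

end

lemma cls_ds (T : s.TT) (h : s.Cls a b) : Y.dist (s.σ a) (s.σ b) = Y.dist a b := by
  obtain ⟨r, z, y, rfl, rfl, k⟩ := ex_run T h
  exact k.ds T

lemma cls_ds_it (T : s.TT) (h : s.Cls a b) (n : ℕ) :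
    Y.dist (s.σ^[n] a) (s.σ^[n] b) = Y.dist a b := by
  induction n generalizing a b with
  | zero => rfl
  | succ n ih => exact (ih (cls_σ T h)).trans (cls_ds T h)

/-- class points stay in order -/
lemma cls_lg (T : s.TT) (h : s.Cls a u) (h' : s.Cls u b) (e : Y.btw a u b) : s.Legal a u b :=
  fun n => bt_of_ds (lev_it n e.1) (lev_it n e.2.1) (by
    rw [cls_ds_it T h, cls_ds_it T h', cls_ds_it T (h.trans h'), bt_ds e])

section
variable {N : ℕ} (T : s.TT) (hN : ∀ p y q, s.INP p y q → Y.dist p q ≤ N)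
include T hN

lemma cls_noleg (h : s.Cls p q) : s.NoLeg (2 * N + 1) p q := by
  obtain ⟨r, z, y, rfl, rfl, k⟩ := ex_run T h
  have key : ∀ u v, Y.btw (z 0) u (z r) → Y.btw (z 0) v (z r) → Y.btw (z 0) u v →
      s.LegalP u v → Y.dist u v < 2 * N + 1 := by
    intro u v hu hv o l
    by_contra e
    have := bt_ds o; have := bt_ds hv
    obtain ⟨i, hi, e1, e2⟩ := k.inside hN hu (by omega)
    obtain ⟨-, -, -, k4, k5⟩ := st_on k hi
    exact k.not_lp T hi hu hv (by omega) (by omega) l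
  intro u v hu hv l
  rcases bt_total hu hv with o | o
  · exact key u v hu hv o l
  · exact ds_comm u v ▸ key v u hv hu o (lp_symm l)

lemma cls_dense (h : s.Cls p q) (hx : Y.btw p x q) :
    ∃ z, s.Cls p z ∧ Y.btw p z x ∧ Y.dist z x ≤ N := by
  obtain ⟨r, z, y, rfl, rfl, k⟩ := ex_run T h
  rcases k.loc hx with rfl | ⟨i, hi, e1, e2⟩
  · exact ⟨_, h, bt_right hx.1, by simp⟩
  have o := bt_of_le (k.on hi.le) hx e1
  have := bt_ds o
  have := k.step hi
  have := hN _ _ _ (k.inp hi)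
  exact ⟨z i, k.cls hi.le, o, by omega⟩

/-- a Nielsen path inside a run belongs to the run -/
lemma cls_of_inp (h : s.Cls a b) (k : s.INP p y q) (h1 : Y.btw a p q) (h2 : Y.btw p q b) :
    s.Cls a p := by
  obtain ⟨r, z, y', rfl, rfl, R⟩ := ex_run T h
  have e1 := bt_four h1 h2 (inp_ne'' k)
  have e2 := bt_four' h1 h2 (inp_ne'' k)
  have e3 := bt_conv e1 e2 k.1
  have d1 := bt_ds (bt_in' h1 k.1); have d2 := bt_ds (bt_out' h1 k.1)
  have d3 := ds_pos k.1.1 (inp_ne k); have d4 := ds_pos k.1.2.1 (inp_ne' k)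
  have d5 := bt_ds e2
  -- the apex of `k` is an apex of the run
  have : ∃ i < r, y' i = y := by
    by_contra c
    push Not at c
    have A : ∀ i < r, Y.dist (z 0) (y' i) ≤ Y.dist (z 0) p ∨ Y.dist (z 0) q ≤ Y.dist (z 0) (y' i) := by
      intro i hi
      by_contra c'
      have : Y.dist (z 0) (y' i) ≠ Y.dist (z 0) y := fun e => c i hi (eq_of_pos (st_on R hi).2.1 e3 e)
      rcases this.lt_or_gt with o | o
      · exact R.not_lp T hi e1 e3 (by omega) o k.2.1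
      · exact R.not_lp T hi e3 e2 o (by omega) k.2.2.1
    have L := loc_of_st R
    have B : ∀ i ≤ r, ∀ u, Y.btw (z 0) u p → (i < r → s.LegalP u (y' i)) →
        (i = r → s.LegalP u (z r)) → False := by
      intro i hi
      induction hi using Nat.decreasingInduction with
      | self => exact fun u hu _ l => k.2.2.2.1 (lp_sub (l rfl) (bt_in hu e1)
          (bt_in (bt_out hu h1) e2))
      | of_succ i hi ih =>
        intro u hu l _
        rcases A i hi with o | o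
        · refine ih (y' i) (bt_of_le (st_on R hi).2.1 e1 o) (fun e => (L.mid i e).2.2) fun e => ?_
          subst e
          exact (L.lst (by omega)).2
        · have o' := bt_of_le e2 (st_on R hi).2.1 o
          exact k.2.2.2.1 (lp_sub (l hi) (bt_in hu (bt_out h1 o')) (bt_in (bt_out hu h1) o'))
    exact B 0 r.zero_le (z 0) (bt_left e1.1) (fun e => (L.fst e).2) fun e => L.zero e.symm
  obtain ⟨i, hi, rfl⟩ := this
  obtain ⟨k1, k2, k3, k4, k5⟩ := st_on R hi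
  have := inp_unique T k (R.inp hi)
    ((le_total _ _).imp (fun o => bt_symm (bt_of_pos k1 e1 k2 o (by omega)))
      fun o => bt_symm (bt_of_pos e1 k1 k2 o (by omega)))
    ((le_total _ _).imp (fun o => bt_of_pos k2 e2 k3 (by omega) o)
      fun o => bt_of_pos k2 k3 e2 (by omega) o)
  exact this.1 ▸ R.cls hi.le

lemma cls_over (h : s.Cls p q) (h' : s.Cls p' q') (h1 : Y.btw p x q) (h2 : Y.btw p y q)
    (h3 : Y.btw p' x q') (h4 : Y.btw p' y q') (e : 2 * N + 1 ≤ Y.dist x y) : s.Cls p p' := by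
  wlog o : Y.btw p x y generalizing x y
  · exact this h2 h1 h4 h3 (ds_comm x y ▸ e) ((bt_total h1 h2).resolve_left o)
  obtain ⟨r, z, m, rfl, rfl, R⟩ := ex_run T h
  have := bt_ds o; have := bt_ds h2
  obtain ⟨i, hi, e1, e2⟩ := R.inside hN h1 (by omega)
  obtain ⟨k1, -, k3, k4, k5⟩ := st_on R hi
  have a1 := bt_of_pos h1 k1 k3 e1.le (by omega)
  have a2 := bt_of_pos k1 k3 h2 (by omega) (by omega)
  have a3 := bt_of_pos h1 k1 h2 e1.le (by omega)
  have a4 := bt_of_pos h1 k3 h2 (by omega) (by omega)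
  refine (R.cls hi.le).trans (cls_symm ?_)
  rcases bt_total h3 h4 with c | c
  · exact cls_of_inp T hN h' (R.inp hi) (bt_out' (bt_in' c a4) a1) (bt_in a1 (bt_out a4 (bt_in c h4)))
  · refine (cls_of_inp T hN h' (inp_symm (R.inp hi)) (bt_out' (bt_in' c (bt_symm a3)) (bt_symm a2))
      (bt_in (bt_symm a2) (bt_out (bt_symm a3) (bt_in c h3)))).tail ⟨_, inp_symm (R.inp hi)⟩

end

theorem stOV : St_OV := fun _ _ _ _ _ _ h => by
  obtain ⟨N, hN⟩ := inp_bound h
  refine ⟨2 * N + 1, fun p y q e => (hN p y q e).trans (by omega),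
    fun _ _ => cls_noleg h.toTT hN, fun _ _ _ e hx => ?_, fun _ _ _ _ _ _ => cls_over h.toTT hN⟩
  obtain ⟨z, h1, h2, h3⟩ := cls_dense h.toTT hN e hx
  exact ⟨z, h1, h2, by omega⟩

/-- Nielsen points -/
def Fix (s : Flow Y) (p : Y.V) : Prop := ∃ γ : G, s.σ p = γ • p

lemma Fix.σ (h : Fix s p) : Fix s (s.σ p) := by
  obtain ⟨γ, e⟩ := h
  exact ⟨γ, by rw [e, σ_smul, e]⟩

lemma Fix.inj (h : Fix s p) (h' : Fix s q) (e : s.σ p = s.σ q) : p = q := by
  obtain ⟨γ, h1⟩ := h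
  obtain ⟨γ', h2⟩ := h'
  obtain ⟨ρ⟩ := s.rev
  have e1 : q = (γ'⁻¹ * γ) • p := by rw [mul_smul, ← h1, e, h2, inv_smul_smul]
  have e2 : (γ'⁻¹ * γ) • s.σ p = s.σ p := by rw [← σ_smul, ← e1, e]
  by_cases c : ρ (s.σ p) = p
  · rw [e1, ← c, ← ρ.map_smul, e2]
  have l : Y.lev p = Y.lev (ρ (s.σ p)) := by
    rw [ρ.lev_map, show Y.lev (s.σ p) = _ from s.f.lev_map p]; ring
  have e3 : (γ⁻¹ * (γ'⁻¹ * γ) * γ) • p = p := by
    rw [mul_smul, mul_smul, ← h1, e2, h1, inv_smul_smul]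
  have e4 := fix_one l (Ne.symm c) e3 (by rw [← ρ.map_smul, ← σ_smul, e3])
  have : γ'⁻¹ * γ = 1 := by
    have := congrArg (fun x => γ * x * γ⁻¹) e4
    simpa [mul_assoc] using this
  rw [e1, this, one_smul]

lemma cls_fix (h : s.Cls p q) (hp : Fix s p) : Fix s q := by
  induction h with
  | refl => exact hp
  | tail _ e _ => exact let ⟨_, _, _, _, _, γ, _, e⟩ := e; ⟨γ, e⟩

lemma cls_fix' (h : s.Cls p q) (hne : p ≠ q) : Fix s p := by
  rcases h.cases_head with e | ⟨_, ⟨_, _, _, _, _, γ, e, _⟩, _⟩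
  · exact (hne e).elim
  · exact ⟨γ, e⟩

lemma cls_pull (hp : Fix s p) (h : s.Cls (s.σ p) b) : ∃ q, s.Cls p q ∧ s.σ q = b := by
  induction h with
  | refl => exact ⟨p, .refl, rfl⟩
  | @tail u v _ e ih =>
    obtain ⟨q, h1, rfl⟩ := ih
    obtain ⟨y, e⟩ := e
    obtain ⟨γ, e1, e2⟩ := e.2.2.2.2
    have k := inp_smul γ⁻¹ e
    have e3 : γ⁻¹ • s.σ q = q := Fix.inj ⟨γ, by rw [σ_smul, e1]; simp⟩ (cls_fix h1 hp)
      (by rw [σ_smul, e1, inv_smul_smul])
    rw [e3] at k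
    exact ⟨_, h1.tail ⟨_, k⟩, by rw [σ_smul, e2, inv_smul_smul]⟩

lemma Fix.pre (h : Fix s p) : ∃ p₀, Fix s p₀ ∧ s.σ p₀ = p := by
  obtain ⟨γ, e⟩ := h
  have : s.σ (γ⁻¹ • p) = p := by rw [σ_smul, e, inv_smul_smul]
  exact ⟨γ⁻¹ • p, ⟨γ, by rw [this, smul_inv_smul]⟩, this⟩

/-- classes do not merge -/
lemma cls_back (hp : Fix s p) (hq : Fix s q) (n : ℕ) (h : s.Cls (s.σ^[n] p) (s.σ^[n] q)) :
    s.Cls p q := by
  induction n generalizing p q with
  | zero => exact h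
  | succ n ih =>
    obtain ⟨q', h1, h2⟩ := cls_pull hp (ih hp.σ hq.σ h)
    exact (cls_fix h1 hp).inj hq h2 ▸ h1

theorem pull (T : s.TT) (h : s.Cls p q) : Y.dist (s.σ p) (s.σ q) = Y.dist p q ∧
    s.Cls (s.σ p) (s.σ q) ∧ (p ≠ q → ∃ p₀ q₀, s.Cls p₀ q₀ ∧ s.σ p₀ = p ∧ s.σ q₀ = q) := by
  refine ⟨cls_ds T h, cls_σ T h, fun hne => ?_⟩
  obtain ⟨p₀, h1, rfl⟩ := (cls_fix' h hne).pre
  obtain ⟨q₀, h2, h3⟩ := cls_pull h1 h
  exact ⟨p₀, q₀, h2, rfl, h3⟩

end Pool.Agent.Lib.FBC.T2
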