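import Pool.Agent.Lib.FBC.T2.Leg

/-!
Nielsen paths and stable paths: `St_NEXT`.
-/

namespace Pool.Agent.Lib.FBC.T2

open Forest

variable {G : Type} [Group G] {d : Dg G} {Y : Forest d} {s : Flow Y}
variable {a b p q t u v x y z p' q' y' : Y.V}

lemma inp_symm (h : s.INP p y q) : s.INP q y p :=
  let ⟨h1, h2, h3, h4, g, h5, h6⟩ := h
  ⟨bt_symm h1, lp_symm h3, lp_symm h2, fun e => h4 (lp_symm e), g, h6, h5⟩

lemma inp_ne (h : s.INP p y q) : p ≠ y := fun e => h.2.2.2.1 (e ▸ h.2.2.1)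

lemma inp_ne' (h : s.INP p y q) : y ≠ q := (inp_ne (inp_symm h)).symm

lemma inp_ne'' (h : s.INP p y q) : p ≠ q := fun e => h.2.2.2.1 (e ▸ lp_refl _)

lemma lp_smul_iff (g : G) : s.LegalP (g • a) (g • b) ↔ s.LegalP a b :=
  ⟨fun h => by simpa using lp_smul g⁻¹ h, lp_smul g⟩

lemma inp_smul (g : G) (h : s.INP p y q) : s.INP (g • p) (g • y) (g • q) :=
  let ⟨h1, h2, h3, h4, γ, h5, h6⟩ := h
  ⟨bt_smul g h1, lp_smul g h2, lp_smul g h3, fun e => h4 ((lp_smul_iff g).1 e), g * γ * g⁻¹,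
    by simp [σ_smul, h5, mul_smul], by simp [σ_smul, h6, mul_smul]⟩

/-- the illegal turn of a path with one illegal turn is unique -/
lemma apex_unique (T : s.TT) (h1 : Y.btw p y q) (h2 : Y.btw p y' q) (l1 : s.LegalP p y)
    (l2 : s.LegalP y q) (l3 : s.LegalP p y') (l4 : s.LegalP y' q) (n : ¬ s.LegalP p q) :
    y = y' := by
  by_contra e
  rcases bt_total h1 h2 with o | o
  · exact n (lp_over T l3 l2 o (bt_in o h2) e)
  · exact n (lp_over T l1 l4 o (bt_in o h1) (Ne.symm e))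

lemma inp_apex (T : s.TT) (h : s.INP p y q) {γ : G} (h1 : s.σ p = γ • p) (h2 : s.σ q = γ • q) :
    Y.btw (s.σ p) (γ • y) (s.σ y) ∧ Y.btw (s.σ y) (γ • y) (s.σ q) := by
  obtain ⟨m, m1, m2, m3⟩ := ex_med (lev_σ (s := s) h.1.1) (lev_σ h.1.2.1)
  have k := inp_smul γ h
  rw [← h1, ← h2] at k
  rw [← apex_unique T m3 k.1 (lp_left (lp_σ T h.2.1) m1) (lp_right (lp_σ T h.2.2.1) m2) k.2.1
    k.2.2.1 k.2.2.2.1]
  exact ⟨m1, m2⟩

lemma inp_next (T : s.TT) (h : s.INP p y q) : ∃ m, s.INP (s.σ p) m (s.σ q) ∧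
    Y.btw (s.σ p) m (s.σ y) ∧ Y.btw (s.σ y) m (s.σ q) ∧ Y.dist (s.σ p) m = Y.dist p y ∧
    Y.dist m (s.σ q) = Y.dist y q := by
  obtain ⟨γ, h1, h2⟩ := h.2.2.2.2
  have := inp_apex T h h1 h2
  refine ⟨γ • y, ?_, this.1, this.2, ?_, ?_⟩
  · rw [h1, h2]; exact inp_smul γ h
  · rw [h1, ds_smul]
  · rw [h2, ds_smul]

lemma inp_it (T : s.TT) (h : s.INP p y q) (n : ℕ) : ∃ m, s.INP (s.σ^[n] p) m (s.σ^[n] q) ∧
    Y.btw (s.σ^[n] p) m (s.σ^[n] y) ∧ Y.btw (s.σ^[n] y) m (s.σ^[n] q) ∧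
    Y.dist (s.σ^[n] p) m = Y.dist p y ∧ Y.dist m (s.σ^[n] q) = Y.dist y q := by
  induction n with
  | zero => exact ⟨y, h, bt_right h.1.1, bt_left h.1.2.1, rfl, rfl⟩
  | succ n ih =>
    obtain ⟨m, h1, h2, h3, h4, h5⟩ := ih
    obtain ⟨m', k1, k2, k3, k4, k5⟩ := inp_next T h1
    simp only [Function.iterate_succ_apply']
    exact ⟨m', k1, bt_out k2 (lp_bt (lp_it T h.2.1 n) h2),
      bt_out' (lp_bt (lp_it T h.2.2.1 n) h3) k3, k4.trans h4, k5.trans h5⟩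

/-- points of an arm other than its end are eventually cancelled -/
lemma inp_absorb (T : s.TT) (h : s.INP p y q) (ht : Y.btw p t y) (hne : p ≠ t) {n : ℕ}
    (hn : Y.dist p y ≤ n) : Y.btw (s.σ^[n] y) (s.σ^[n] t) (s.σ^[n] q) := by
  obtain ⟨m, -, h2, h3, h4, -⟩ := inp_it T h n
  have k := lp_lg h.2.1 ht n
  have := exp_lt T (lp_left h.2.1 ht) hne n
  exact bt_out (bt_symm (bt_in (bt_of_le h2 k (by omega)) k)) h3

lemma fix_it {γ : G} (h : s.σ p = γ • p) (n : ℕ) : s.σ^[n] p = γ ^ n • p := by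
  induction n with
  | zero => simp
  | succ n ih => rw [Function.iterate_succ_apply', ih, σ_smul, h, pow_succ, mul_smul]

lemma inp_unique_aux (T : s.TT) (h : s.INP p y q) (h' : s.INP p' y q') (hp : Y.btw p p' y)
    (hq : Y.btw y q q' ∨ Y.btw y q' q) : p = p' := by
  by_contra e
  have k := inp_absorb T h hp e le_rfl
  obtain ⟨m, k1, -⟩ := inp_it T h' (Y.dist p y)
  refine k1.2.2.2.1 ?_
  rcases hq with o | o
  · exact lp_right (lp_it T h'.2.2.1 _) (bt_out k (lp_lg h'.2.2.1 o _))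
  · exact lp_sub (lp_it T h.2.2.1 _) k (lp_lg h.2.2.1 o _)

/-- two Nielsen paths with one apex on one geodesic coincide -/
lemma inp_unique (T : s.TT) (h : s.INP p y q) (h' : s.INP p' y q')
    (hp : Y.btw y p p' ∨ Y.btw y p' p) (hq : Y.btw y q q' ∨ Y.btw y q' q) : p = p' ∧ q = q' :=
  ⟨hp.elim (fun o => (inp_unique_aux T h' h (bt_symm o) hq.symm).symm)
    fun o => inp_unique_aux T h h' (bt_symm o) hq,
   hq.elim (fun o => (inp_unique_aux T (inp_symm h') (inp_symm h) (bt_symm o) hp.symm).symm)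
    fun o => inp_unique_aux T (inp_symm h) (inp_symm h') (bt_symm o) hp⟩

/-- local description of stable paths -/
structure Loc (s : Flow Y) (r : ℕ) (a b : Y.V) (p y q : ℕ → Y.V) : Prop where
  inp : ∀ i < r, s.INP (p i) (y i) (q i)
  mid : ∀ i, i + 1 < r → Y.btw (y i) (q i) (y (i + 1)) ∧ Y.btw (q i) (p (i + 1)) (y (i + 1)) ∧
    s.LegalP (y i) (y (i + 1))
  zero : r = 0 → s.LegalP a b
  fst : 0 < r → Y.btw a (p 0) (y 0) ∧ s.LegalP a (y 0)
  lst : 0 < r → Y.btw (y (r - 1)) (q (r - 1)) b ∧ s.LegalP (y (r - 1)) b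

section
variable {r : ℕ} {p y q : ℕ → Y.V}

lemma st_on (h : s.St r a b p y q) {i : ℕ} (hi : i < r) :
    Y.btw a (p i) b ∧ Y.btw a (y i) b ∧ Y.btw a (q i) b ∧ Y.dist a (p i) < Y.dist a (y i) ∧
      Y.dist a (y i) < Y.dist a (q i) := by
  obtain ⟨k1, k2, k3⟩ := h.1 i hi
  have e1 := bt_four k2 k3 (inp_ne'' k1)
  have e2 := bt_four' k2 k3 (inp_ne'' k1)
  have := bt_ds (bt_in' k2 k1.1); have := bt_ds (bt_out' k2 k1.1)
  have := ds_pos k1.1.1 (inp_ne k1); have := ds_pos k1.1.2.1 (inp_ne' k1)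
  exact ⟨e1, bt_conv e1 e2 k1.1, e2, by omega, by omega⟩

lemma st_ord (h : s.St r a b p y q) {i : ℕ} (hi : i + 1 < r) :
    Y.dist a (q i) ≤ Y.dist a (p (i + 1)) := by
  obtain ⟨k1, -, -, k4, k5⟩ := st_on h (i := i) (by omega)
  have := pos_of_bt k1 (st_on h hi).1 (h.2.1 i hi).1
  omega

lemma loc_of_st (h : s.St r a b p y q) : Loc s r a b p y q where
  inp i hi := (h.1 i hi).1
  mid i hi := by
    obtain ⟨k1, k2, k3, k4, k5⟩ := st_on h (i := i) (by omega)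
    obtain ⟨l1, l2, l3, l4, l5⟩ := st_on h hi
    have := st_ord h hi
    exact ⟨bt_of_pos k2 k3 l2 (by omega) (by omega), bt_of_pos k3 l1 l2 (by omega) (by omega),
      (h.2.1 i hi).2⟩
  zero := h.2.2.1
  fst hr := ⟨bt_in' (h.1 0 hr).2.1 (h.1 0 hr).1.1, (h.2.2.2 hr).1⟩
  lst hr := ⟨bt_in (h.1 _ (by omega)).1.1
    (h.1 _ (by omega)).2.2, (h.2.2.2 hr).2⟩

lemma Loc.st (h : Loc s r a b p y q) : s.St r a b p y q := by
  have A : ∀ i < r, Y.btw a (p i) (y i) := by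
    intro i hi
    induction i with
    | zero => exact (h.fst hi).1
    | succ i ih =>
      have k := h.inp i (by omega)
      obtain ⟨m1, m2, -⟩ := h.mid i hi
      exact bt_out' (bt_four' (bt_four' (ih (by omega)) k.1 (inp_ne k)) m1 (inp_ne' k)) m2
  have B : ∀ j i, i + j + 1 = r → Y.btw (y i) (q i) b := by
    intro j
    induction j with
    | zero => intro i hi; subst hi; exact (h.lst (by omega)).1
    | succ j ih =>
      intro i hi
      have k := h.inp (i + 1) (by omega)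
      obtain ⟨m1, m2, -⟩ := h.mid i (by omega)
      have e1 := bt_four k.1 (ih (i + 1) (by omega)) (inp_ne' k)
      have e2 : Y.btw (y i) (p (i + 1)) (y (i + 1)) := bt_out' m1 m2
      exact bt_out (bt_in' m1 m2) (bt_four e2 e1 (inp_ne k))
  refine ⟨fun i hi => ⟨h.inp i hi, bt_four (A i hi) (h.inp i hi).1 (inp_ne (h.inp i hi)),
    bt_four' (h.inp i hi).1 (B (r - i - 1) i (by omega)) (inp_ne' (h.inp i hi))⟩,
    fun i hi => ⟨?_, (h.mid i hi).2.2⟩, h.zero, fun hr => ⟨(h.fst hr).2, (h.lst hr).2⟩⟩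
  have k := h.inp i (by omega)
  exact bt_four' k.1 (bt_in' (h.mid i hi).1 (h.mid i hi).2.1) (inp_ne' k)

lemma Loc.next (T : s.TT) (h : Loc s r a b p y q) :
    ∃ y', Loc s r (s.σ a) (s.σ b) (fun i => s.σ (p i)) y' (fun i => s.σ (q i)) := by
  have : ∀ i, ∃ m, i < r → s.INP (s.σ (p i)) m (s.σ (q i)) ∧
      Y.btw (s.σ (p i)) m (s.σ (y i)) ∧ Y.btw (s.σ (y i)) m (s.σ (q i)) := fun i => by
    by_cases hi : i < r
    · obtain ⟨m, h1, h2, h3, -⟩ := inp_next T (h.inp i hi)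
      exact ⟨m, fun _ => ⟨h1, h2, h3⟩⟩
    · exact ⟨a, fun e => (hi e).elim⟩
  choose m hm using this
  refine ⟨m, fun i hi => (hm i hi).1, fun i hi => ?_, fun e => lp_σ T (h.zero e),
    fun hr => ?_, fun hr => ?_⟩
  · obtain ⟨m1, m2, m3⟩ := h.mid i hi
    have e1 := lp_bt m3 m1
    have e2 := lp_bt (lp_right m3 m1) m2
    have e3 := (hm i (by omega)).2.2
    have e4 := (hm (i + 1) hi).2.1
    have e5 := bt_out' e2 e4
    exact ⟨bt_in e3 (bt_in' e1 e5), bt_in' e2 e4,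
      lp_sub (lp_σ T m3) (bt_out e3 e1) (bt_out' e1 e5)⟩
  · have e := lp_bt (h.fst hr).2 (h.fst hr).1
    exact ⟨bt_in' e (hm 0 hr).2.1, lp_left (lp_σ T (h.fst hr).2) (bt_out' e (hm 0 hr).2.1)⟩
  · have e := lp_bt (h.lst hr).2 (h.lst hr).1
    have e' := (hm (r - 1) (by omega)).2.2
    exact ⟨bt_in e' e, lp_right (lp_σ T (h.lst hr).2) (bt_out e' e)⟩

lemma st_next (T : s.TT) (h : s.St r a b p y q) :
    ∃ y', s.St r (s.σ a) (s.σ b) (fun i => s.σ (p i)) y' (fun i => s.σ (q i)) :=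
  let ⟨y', e⟩ := (loc_of_st h).next T; ⟨y', e.st⟩

lemma st_it (T : s.TT) (h : s.St r a b p y q) (n : ℕ) : ∃ y',
    s.St r (s.σ^[n] a) (s.σ^[n] b) (fun i => s.σ^[n] (p i)) y' (fun i => s.σ^[n] (q i)) := by
  induction n with
  | zero => exact ⟨y, h⟩
  | succ n ih =>
    obtain ⟨y', e⟩ := ih
    simpa only [Function.iterate_succ_apply'] using st_next T e

lemma Loc.tail (h : Loc s (r + 1) a b p y q) :
    Loc s r (q 0) b (fun i => p (i + 1)) (fun i => y (i + 1)) (fun i => q (i + 1)) where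
  inp i hi := h.inp _ (by omega)
  mid i hi := h.mid _ (by omega)
  zero e := by subst e; exact lp_right (h.lst one_pos).2 (h.lst one_pos).1
  fst hr := ⟨(h.mid 0 (by omega)).2.1, lp_right (h.mid 0 (by omega)).2.2 (h.mid 0 (by omega)).1⟩
  lst hr := by
    obtain ⟨k, rfl⟩ : ∃ k, r = k + 1 := ⟨r - 1, by omega⟩
    exact h.lst (by omega)

end

theorem stNEXT : St_NEXT := fun _ _ _ _ _ _ h _ _ _ _ _ _ e => st_next h.toTT e

end Pool.Agent.Lib.FBC.T2
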