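import Pool.Agent.Lib.FBC.T2.St

/-!
`St_STAB`: paths with boundedly many illegal turns become stable in bounded time.
-/

namespace Pool.Agent.Lib.FBC.T2

open Forest

variable {G : Type} [Group G] {d : Dg G} {Y : Forest d} {s : Flow Y}
variable {A B C D a b p q m p' q' m' : Y.V}

lemma inp_bound (h : s.NF) : ∃ N : ℕ, ∀ p y q, s.INP p y q → Y.dist p q ≤ N := by
  obtain ⟨S, hS⟩ := h.fin_inp
  refine ⟨S.sup fun x => Y.dist x.1 x.2, fun p y q e => ?_⟩
  obtain ⟨g, hg⟩ := hS p y q e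
  rw [← ds_smul g]
  exact Finset.le_sup (f := fun x : Y.V × Y.V => Y.dist x.1 x.2) hg

/-- a Nielsen path at the median of two legal arms -/
def Ap (s : Flow Y) (A B C p m q : Y.V) : Prop :=
  s.INP p m q ∧ Y.btw A p m ∧ Y.btw A m B ∧ Y.btw B m C ∧ Y.btw m q C ∧ s.LegalP A B ∧
    s.LegalP B C

lemma ap_of (T : s.TT) (l1 : s.LegalP A B) (l2 : s.LegalP B C) (h : s.INP p m q)
    (h1 : Y.btw A p q) (h2 : Y.btw p q C) : Ap s A B C p m q := by
  obtain ⟨μ, m1, m2, m3⟩ := ex_med l1.1 l2.1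
  have e1 := bt_four h1 h2 (inp_ne'' h)
  have e2 := bt_four' h1 h2 (inp_ne'' h)
  have k1 := lp_left l1 m1
  have k2 := lp_right l2 m2
  have c1 : Y.btw A p μ := (bt_split m3 e1).resolve_right fun c =>
    h.2.2.2.1 (lp_sub k2 c (bt_out' c h2))
  have c2 : Y.btw μ q C := (bt_split m3 e2).resolve_left fun c =>
    h.2.2.2.1 (lp_sub k1 c1 c)
  have : μ = m := apex_unique T (bt_in c1 (bt_in' m3 c2)) h.1 (lp_right k1 c1) (lp_left k2 c2)
    h.2.1 h.2.2.1 h.2.2.2.1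
  subst this
  exact ⟨h, c1, m1, m2, c2, l1, l2⟩

lemma Ap.next (T : s.TT) (h : Ap s A B C p m q) :
    ∃ m', Ap s (s.σ A) (s.σ B) (s.σ C) (s.σ p) m' (s.σ q) := by
  obtain ⟨h0, h1, h2, h3, h4, l1, l2⟩ := h
  obtain ⟨μ, k0, k1, k2, -⟩ := inp_next T h0
  have e1 := lp_bt (lp_left l1 h2) h1
  have e2 := lp_bt (lp_right l2 h3) h4
  exact ⟨μ, k0, bt_in' e1 k1, bt_out (bt_out' e1 k1) (lp_bt l1 h2),
    bt_out' (lp_bt l2 h3) (bt_out k2 e2), bt_in k2 e2, lp_σ T l1, lp_σ T l2⟩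

lemma Ap.it (T : s.TT) (h : Ap s A B C p m q) (n : ℕ) :
    ∃ m', Ap s (s.σ^[n] A) (s.σ^[n] B) (s.σ^[n] C) (s.σ^[n] p) m' (s.σ^[n] q) := by
  induction n with
  | zero => exact ⟨m, h⟩
  | succ n ih =>
    obtain ⟨m', e⟩ := ih
    simpa only [Function.iterate_succ_apply'] using e.next T

lemma Ap.sep (T : s.TT) {N : ℕ} (hN : ∀ p y q, s.INP p y q → Y.dist p q ≤ N)
    (h : Ap s A B C p m q) (h' : Ap s B C D p' m' q')
    (hn : ¬ s.IL 2 (s.σ^[2 * N] A) (s.σ^[2 * N] D)) : Y.btw B q p' := by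
  have e1 : Y.btw B q C := bt_out' h.2.2.2.1 h.2.2.2.2.1
  have e2 : Y.btw B p' C := bt_out h'.2.1 h'.2.2.1
  by_contra e
  have o := (bt_total e1 e2).resolve_left e
  have hne : p' ≠ q := by rintro rfl; exact e o
  have l := h.2.2.2.2.2.2
  have x1 := exp_lt T (lp_sub l e2 e1) hne (2 * N)
  have x2 := bt_ds (lp_lg (lp_left l e1) o (2 * N))
  obtain ⟨μ, k0, k1, k2, k3, k4, l1, l2⟩ := h.it T (2 * N)
  obtain ⟨μ', j0, j1, j2, j3, j4, -, l3⟩ := h'.it T (2 * N)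
  have := hN _ _ _ k0; have := hN _ _ _ j0
  have := bt_ds k0.1; have := bt_ds j0.1
  have := bt_ds (bt_in' k3 k4); have := bt_ds j1
  have c : Y.btw μ' μ (s.σ^[2 * N] C) := bt_in (bt_of_le j2 k3 (by omega)) k3
  exact hn ((Ch.one (lp_left l1 k2)).snoc (lp_right l3 (bt_out (bt_symm c) j3)))

lemma shorten (T : s.TT) {z : ℕ → Y.V} {r : ℕ} (h : ∀ i < r, s.LegalP (z i) (z (i + 1)))
    {t i l k : ℕ} (hl : i + l ≤ r) (e : s.IL k (s.σ^[t] (z i)) (s.σ^[t] (z (i + l)))) :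
    s.IL (i + k + (r - (i + l))) (s.σ^[t] (z 0)) (s.σ^[t] (z r)) := by
  have h1 : Ch s.LegalP i (z 0) (z i) := by simpa using ch_seg h (i := 0) (k := i) (by omega)
  have h2 : s.IL (r - (i + l)) (z (i + l)) (z r) := by
    have := ch_seg h (i := i + l) (k := r - (i + l)) (by omega)
    rwa [Nat.add_sub_cancel' hl] at this
  exact (Ch.trans (il_it T h1 t) e).trans (il_it T h2 t)

lemma stab (h : s.NF) (I : ℕ) : ∃ j : ℕ, ∀ a b, s.IL I a b → ∃ r p y q, r ≤ I ∧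
    s.St r (s.σ^[j] a) (s.σ^[j] b) p y q := by
  have T := h.toTT
  obtain ⟨M, hM⟩ := h.imm
  obtain ⟨N, hN⟩ := inp_bound h
  induction I with
  | zero =>
    refine ⟨0, fun a b e => ⟨0, fun _ => a, fun _ => a, fun _ => a, le_rfl, ?_⟩⟩
    rw [← ch_zero.1 e]
    exact ⟨by simp, by simp, fun _ => lp_refl _, by simp⟩
  | succ I ih =>
    obtain ⟨j, hj⟩ := ih
    refine ⟨j + (2 * M + 2 * N), fun a b e => ?_⟩
    by_cases c : s.IL I (s.σ^[2 * M + 2 * N] a) (s.σ^[2 * M + 2 * N] b)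
    · obtain ⟨r, p, y, q, h1, h2⟩ := hj _ _ c
      exact ⟨r, p, y, q, by omega, by simpa only [Function.iterate_add_apply] using h2⟩
    obtain ⟨z, rfl, rfl, hz⟩ := e
    have nc : ∀ t ≤ 2 * M + 2 * N, ¬ s.IL I (s.σ^[t] (z 0)) (s.σ^[t] (z (I + 1))) := by
      intro t ht e
      have := il_it T e (2 * M + 2 * N - t)
      rw [← Function.iterate_add_apply, ← Function.iterate_add_apply, Nat.sub_add_cancel ht] at this
      exact c this
    have : ∀ i, ∃ x : Y.V × Y.V × Y.V, i < I →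
        Ap s (s.σ^[M] (z i)) (s.σ^[M] (z (i + 1))) (s.σ^[M] (z (i + 2))) x.1 x.2.1 x.2.2 := by
      intro i
      by_cases hi : i < I
      swap
      · exact ⟨(z 0, z 0, z 0), fun e => (hi e).elim⟩
      have l1 := hz i (by omega)
      have l2 := hz (i + 1) (by omega)
      have n : ¬ s.LegalP (s.σ^[2 * M] (z i)) (s.σ^[2 * M] (z (i + 2))) := fun e => by
        have := shorten T hz (l := 2) (by omega) (Ch.one e)
        rw [show i + 1 + (I + 1 - (i + 2)) = I by omega] at this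
        exact nc _ (by omega) this
      obtain ⟨p, m, q, k1, k2, k3⟩ := hM _ _ _ l1 l2
        (fun e => n (lp_right (lp_it T l2 _) e)) (fun e => n (lp_left (lp_it T l1 _) e)) n
      exact ⟨(p, m, q), fun _ => ap_of T (lp_it T l1 _) (lp_it T l2 _) k1 k2 k3⟩
    choose x hx using this
    have L : Loc s I (s.σ^[M] (z 0)) (s.σ^[M] (z (I + 1))) (fun i => (x i).1) (fun i => (x i).2.1)
        fun i => (x i).2.2 := by
      refine ⟨fun i hi => (hx i hi).1, fun i hi => ?_, fun e => ?_, fun hr => ?_, fun hr => ?_⟩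
      · have a1 := hx i (by omega)
        have a2 := hx (i + 1) hi
        have o := a1.sep T hN a2 fun e => by
          rw [← Function.iterate_add_apply, ← Function.iterate_add_apply] at e
          have := shorten T hz (l := 3) (by omega) e
          rw [show i + 2 + (I + 1 - (i + 3)) = I by omega] at this
          exact nc _ (by omega) this
        exact ⟨bt_in (bt_in' a1.2.2.2.1 a1.2.2.2.2.1) (bt_out o a2.2.1), bt_in o a2.2.1,
          lp_sub a1.2.2.2.2.2.2 a1.2.2.2.1 a2.2.2.1⟩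
      · subst e; exact lp_it T (hz 0 one_pos) _
      · exact ⟨(hx 0 hr).2.1, lp_left (hx 0 hr).2.2.2.2.2.1 (hx 0 hr).2.2.1⟩
      · obtain ⟨k, rfl⟩ : ∃ k, I = k + 1 := ⟨I - 1, by omega⟩
        have a1 := hx k (by omega)
        exact ⟨a1.2.2.2.2.1, lp_right a1.2.2.2.2.2.2 a1.2.2.2.1⟩
    obtain ⟨y', e⟩ := st_it T L.st (j + M + 2 * N)
    rw [← Function.iterate_add_apply, ← Function.iterate_add_apply,
      show j + M + 2 * N + M = j + (2 * M + 2 * N) by omega] at e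
    exact ⟨I, _, y', _, by omega, e⟩

theorem stSTAB : St_STAB := fun _ _ _ _ _ _ h => stab h

end Pool.Agent.Lib.FBC.T2
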