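import Pool.Agent.Lib.FBC.Blue0

/-!
Betweenness calculus in forests (for the T2 exports).
-/

namespace Pool.Agent.Lib.FBC.T2

open Forest

variable {G : Type} [Group G] {d : Dg G} {Y : Forest d}

lemma bt_symm {a x b : Y.V} (h : Y.btw a x b) : Y.btw b x a :=
  ⟨h.2.1.symm, h.1.symm, fun c e => (h.2.2 c e.symm).trans e.symm⟩

lemma bt_lev {a x b : Y.V} (h : Y.btw a x b) : Y.lev a = Y.lev b := h.1.trans h.2.1

lemma bt_left {a b : Y.V} (h : Y.lev a = Y.lev b) : Y.btw a a b := ⟨rfl, h, fun _ _ => rfl⟩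

lemma bt_right {a b : Y.V} (h : Y.lev a = Y.lev b) : Y.btw a b b :=
  ⟨h, rfl, fun _ e => e.symm⟩

lemma bt_self {a x : Y.V} (h : Y.btw a x a) : x = a :=
  eq_of_sd h.2.1 fun c => h.2.2 c rfl

/-- `a x y`, `a y b` give `x y b` -/
lemma bt_in {a x y b : Y.V} (h : Y.btw a x y) (h' : Y.btw a y b) : Y.btw x y b := by
  refine ⟨h.2.1, h'.2.1, fun c => ?_⟩
  have h1 := h.2.2 c; have h2 := h'.2.2 c
  revert h1 h2
  cases c.sd a <;> cases c.sd x <;> cases c.sd y <;> cases c.sd b <;> simp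

/-- `a x y`, `a y b` give `a x b` -/
lemma bt_out {a x y b : Y.V} (h : Y.btw a x y) (h' : Y.btw a y b) : Y.btw a x b := by
  refine ⟨h.1, h.2.1.trans h'.2.1, fun c => ?_⟩
  have h1 := h.2.2 c; have h2 := h'.2.2 c
  revert h1 h2
  cases c.sd a <;> cases c.sd x <;> cases c.sd y <;> cases c.sd b <;> simp

/-- `a x b`, `x y b` give `a x y` -/
lemma bt_in' {a x y b : Y.V} (h : Y.btw a x b) (h' : Y.btw x y b) : Y.btw a x y :=
  bt_symm (bt_in (bt_symm h') (bt_symm h))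

/-- `a x b`, `x y b` give `a y b` -/
lemma bt_out' {a x y b : Y.V} (h : Y.btw a x b) (h' : Y.btw x y b) : Y.btw a y b :=
  bt_symm (bt_out (bt_symm h') (bt_symm h))

/-- convexity -/
lemma bt_conv {a b x y z : Y.V} (h : Y.btw a x b) (h' : Y.btw a y b) (hz : Y.btw x z y) :
    Y.btw a z b := by
  refine ⟨h.1.trans hz.1, hz.2.1.trans h'.2.1, fun c e => ?_⟩
  have h1 := h.2.2 c e; have h2 := h'.2.2 c e
  rw [hz.2.2 c (h1.trans h2.symm), h1]

lemma bt_anti {a x y : Y.V} (h : Y.btw a x y) (h' : Y.btw a y x) : x = y := by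
  refine eq_of_sd h.2.1 fun c => ?_
  have h1 := h.2.2 c; have h2 := h'.2.2 c
  revert h1 h2
  cases c.sd a <;> cases c.sd x <;> cases c.sd y <;> simp

lemma bt_sub {a x b : Y.V} (h : Y.btw a x b) : sep a x ⊆ sep a b := fun c hc => by
  rw [mem_sep (bt_lev h)]
  exact fun e => sd_ne_of_mem hc (h.2.2 c e).symm

lemma bt_of_sub {a x b : Y.V} (h1 : Y.lev a = Y.lev x) (h2 : Y.lev x = Y.lev b)
    (h : sep x b ⊆ sep a b) : Y.btw a x b := by
  refine ⟨h1, h2, fun c e => ?_⟩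
  by_contra e'
  exact sd_ne_of_mem (h ((mem_sep h2).2 (e ▸ e'))) e

lemma bt_ed {a b : Y.V} {c : Y.E} (h : c ∈ sep a b) (β : Bool) : Y.btw a (c.ed β) b :=
  bt_of_sub (lev_ed_of_mem h β).symm ((lev_ed_of_mem h β).trans (lev_eq_of_mem h))
    (sep_ed_subset h β)

/-- the four point rule -/
lemma bt_four {a x y b : Y.V} (h : Y.btw a x y) (h' : Y.btw x y b) (hne : x ≠ y) :
    Y.btw a x b := by
  refine ⟨h.1, bt_lev h', fun w e => ?_⟩
  by_contra e'
  have e1 : w.sd y = w.sd x := by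
    have := h.2.2 w
    revert this e'
    cases w.sd a <;> cases w.sd x <;> cases w.sd y <;> simp
  have m1 := bt_ed ((mem_sep h.1).2 (Ne.symm e')) false
  have m2 := bt_ed (a := y) (b := b) (c := w)
    ((mem_sep h'.2.1).2 (by rw [e1, ← e]; exact e')) false
  apply hne
  refine eq_of_sd h.2.1 fun c => ?_
  have h1 := h.2.2 c; have h2 := h'.2.2 c; have h3 := m1.2.2 c; have h4 := m2.2.2 c
  revert h1 h2 h3 h4
  cases c.sd a <;> cases c.sd x <;> cases c.sd y <;> cases c.sd b <;>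
    cases c.sd (w.ed false) <;> simp

lemma bt_four' {a x y b : Y.V} (h : Y.btw a x y) (h' : Y.btw x y b) (hne : x ≠ y) :
    Y.btw a y b := bt_symm (bt_four (bt_symm h') (bt_symm h) hne.symm)

lemma ds_comm (a b : Y.V) : Y.dist a b = Y.dist b a := by simp [Forest.dist, sep_comm a b]

@[simp] lemma ds_self (a : Y.V) : Y.dist a a = 0 := by simp [Forest.dist]

lemma ds_zero {a b : Y.V} (h : Y.lev a = Y.lev b) (e : Y.dist a b = 0) : a = b :=
  eq_of_sep h (Finset.card_eq_zero.1 e)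

lemma ds_pos {a b : Y.V} (h : Y.lev a = Y.lev b) (e : a ≠ b) : 0 < Y.dist a b :=
  Nat.pos_of_ne_zero fun e' => e (ds_zero h e')

lemma ds_tri {a x b : Y.V} (h : Y.lev a = Y.lev x) (h' : Y.lev x = Y.lev b) :
    Y.dist a b ≤ Y.dist a x + Y.dist x b :=
  (Finset.card_le_card (sep_subset_union h h')).trans (Finset.card_union_le _ _)

lemma bt_ds {a x b : Y.V} (h : Y.btw a x b) : Y.dist a x + Y.dist x b = Y.dist a b := by
  have h1 := bt_sub h
  have h2 := bt_sub (bt_symm h)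
  rw [sep_comm b x, sep_comm b a] at h2
  have hd : Disjoint (sep a x) (sep x b) := Finset.disjoint_left.2 fun c e1 e2 => by
    have := (mem_sep_tri h.1 h.2.1).1 (h1 e1)
    tauto
  unfold Forest.dist
  rw [← Finset.card_union_of_disjoint hd]
  exact congrArg _ ((Finset.union_subset h1 h2).antisymm (sep_subset_union h.1 h.2.1))

lemma bt_of_ds {a x b : Y.V} (h : Y.lev a = Y.lev x) (h' : Y.lev x = Y.lev b)
    (e : Y.dist a x + Y.dist x b ≤ Y.dist a b) : Y.btw a x b := by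
  refine bt_of_sub h h' ?_
  have : sep a b = sep a x ∪ sep x b :=
    Finset.eq_of_subset_of_card_le (sep_subset_union h h')
      ((Finset.card_union_le _ _).trans e)
  rw [this]; exact Finset.subset_union_right

lemma ds_smul (g : G) (a b : Y.V) : Y.dist (g • a) (g • b) = Y.dist a b := by
  unfold Forest.dist
  rw [sep_smul, Finset.card_image_of_injective _ (MulAction.injective g)]

lemma lev_sm (g : G) {a b : Y.V} (h : Y.lev a = Y.lev b) : Y.lev (g • a) = Y.lev (g • b) := by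
  rw [Y.lev_smul, Y.lev_smul, h]

lemma bt_smul (g : G) {a x b : Y.V} (h : Y.btw a x b) : Y.btw (g • a) (g • x) (g • b) :=
  bt_of_ds (lev_sm g h.1) (lev_sm g h.2.1) (by rw [ds_smul, ds_smul, ds_smul, bt_ds h])

lemma adj_ds {a b : Y.V} (h : Adj a b) : Y.lev a = Y.lev b ∧ Y.dist a b = 1 := by
  obtain ⟨c, β, rfl, rfl⟩ := h
  exact ⟨lev_ed_eq _ _ _, by simp [Forest.dist, sep_ed]⟩

lemma first_bt {a b : Y.V} {e : Y.Dir} (h : First a b e) : Y.btw a e.tgt b := bt_ed h.2 _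

lemma first_adj {a b : Y.V} {e : Y.Dir} (h : First a b e) : Adj a e.tgt :=
  ⟨e.1, e.2, h.1.symm, rfl⟩

lemma ex_step {a b : Y.V} (h : Y.lev a = Y.lev b) (hne : a ≠ b) :
    ∃ x, Adj a x ∧ Y.btw a x b := by
  obtain ⟨e, he⟩ := exists_First h hne
  exact ⟨_, first_adj he, first_bt he⟩

/-- induction along a geodesic, from the far end -/
lemma ds_ind {b : Y.V} {P : Y.V → Prop} (h0 : P b)
    (hs : ∀ a x, Adj a x → Y.btw a x b → P x → P a) {a : Y.V} (h : Y.lev a = Y.lev b) : P a :=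
  geo_ind h0 (fun c β hc ih => hs _ _ ⟨c, β, rfl, rfl⟩ (bt_ed hc _) ih) h

/-- two geodesics from `a` either share their first dart or form a geodesic -/
lemma first_or {a b c : Y.V} {e : Y.Dir} (h : First a b e) (hc : Y.lev a = Y.lev c) :
    First a c e ∨ Y.btw b a c := by
  by_cases h1 : e.1 ∈ sep a c
  · exact Or.inl ⟨h.1, h1⟩
  have hb := lev_eq_of_mem h.2
  refine Or.inr ⟨hb.symm, hc, fun w e1 => ?_⟩
  by_contra e2
  have m1 := bt_ed ((mem_sep hb).2 e2) (!w.sd a)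
  have m2 := bt_ed (a := a) (b := c) (c := w) ((mem_sep hc).2 (e1 ▸ e2)) (!w.sd a)
  obtain ⟨f, hf⟩ := exists_First m1.1 (fun e => by simpa using congrArg w.sd e)
  have := (hf.mono (bt_sub m1)).unique h
  exact h1 (this ▸ (hf.mono (bt_sub m2)).2)

lemma ex_med {a b c : Y.V} (h : Y.lev a = Y.lev b) (hc : Y.lev b = Y.lev c) :
    ∃ m, Y.btw a m b ∧ Y.btw b m c ∧ Y.btw a m c := by
  refine geo_ind (P := fun a => ∃ m, Y.btw a m b ∧ Y.btw b m c ∧ Y.btw a m c)
    ⟨b, bt_left rfl, bt_left hc, bt_left hc⟩ (fun e β he ih => ?_) h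
  have hl := lev_eq_of_mem he
  rcases first_or (a := e.ed β) (e := (e, β)) ⟨rfl, he⟩ (hl.trans hc) with h1 | h1
  · obtain ⟨m, m1, m2, m3⟩ := ih
    exact ⟨m, bt_out' (bt_ed he _) m1, m2, bt_out' (first_bt h1) m3⟩
  · exact ⟨_, bt_left hl, h1, bt_left (hl.trans hc)⟩

/-- points of a geodesic are comparable -/
lemma bt_total {a b x y : Y.V} (hx : Y.btw a x b) (hy : Y.btw a y b) :
    Y.btw a x y ∨ Y.btw a y x := by
  obtain ⟨m, m1, m2, m3⟩ := ex_med hx.1 (hx.2.1.trans hy.2.1.symm)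
  by_cases e : m = x
  · exact Or.inl (e ▸ m3)
  refine Or.inr ?_
  have h1 : Y.btw m x b := bt_in m1 hx
  have h2 : Y.btw y m b := bt_four (bt_symm m2) h1 e
  have h3 : Y.btw m y b := bt_in m3 hy
  have := bt_anti (bt_symm h2) (bt_symm h3)
  exact this ▸ m1

lemma bt_of_le {a b x y : Y.V} (hx : Y.btw a x b) (hy : Y.btw a y b)
    (h : Y.dist a x ≤ Y.dist a y) : Y.btw a x y := by
  rcases bt_total hx hy with e | e
  · exact e
  · have := bt_ds e
    have e' : y = x := ds_zero e.2.1 (by omega)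
    exact e' ▸ bt_right hy.1

/-- distances on a geodesic -/
lemma ds_pos_eq {a b x y : Y.V} (hx : Y.btw a x b) (hy : Y.btw a y b) :
    Y.dist a x + Y.dist x y = Y.dist a y ∨ Y.dist a y + Y.dist x y = Y.dist a x := by
  rcases bt_total hx hy with e | e
  · exact Or.inl (bt_ds e)
  · exact Or.inr (ds_comm x y ▸ bt_ds e)

/-- betweenness on a geodesic from positions -/
lemma bt_of_pos {a b x y z : Y.V} (hx : Y.btw a x b) (hy : Y.btw a y b) (hz : Y.btw a z b)
    (h1 : Y.dist a x ≤ Y.dist a y) (h2 : Y.dist a y ≤ Y.dist a z) : Y.btw x y z :=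
  bt_in (bt_of_le hx hy h1) (bt_of_le hy hz h2)

lemma pos_of_bt {a b x y z : Y.V} (hx : Y.btw a x b) (hz : Y.btw a z b) (h : Y.btw x y z) :
    (Y.dist a x ≤ Y.dist a y ∧ Y.dist a y ≤ Y.dist a z) ∨
      (Y.dist a z ≤ Y.dist a y ∧ Y.dist a y ≤ Y.dist a x) := by
  have hy := bt_conv hx hz h
  have := ds_pos_eq hx hy; have := ds_pos_eq hy hz; have := ds_pos_eq hx hz
  have := bt_ds h
  omega

lemma eq_of_pos {a b x y : Y.V} (hx : Y.btw a x b) (hy : Y.btw a y b)
    (h : Y.dist a x = Y.dist a y) : x = y :=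
  bt_anti (bt_of_le hx hy h.le) (bt_of_le hy hx h.ge)

lemma bt_split {a b u x : Y.V} (hu : Y.btw a u b) (hx : Y.btw a x b) :
    Y.btw a x u ∨ Y.btw u x b := (bt_total hx hu).imp id fun h => bt_in h hx

lemma ex_at {a b : Y.V} (h : Y.lev a = Y.lev b) {k : ℕ} (hk : k ≤ Y.dist a b) :
    ∃ x, Y.btw a x b ∧ Y.dist a x = k := by
  induction k with
  | zero => exact ⟨a, bt_left h, ds_self a⟩
  | succ k ih =>
    obtain ⟨x, h1, h2⟩ := ih (by omega)
    obtain ⟨y, h3, h4⟩ := ex_step h1.2.1 (by rintro rfl; omega)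
    have := bt_ds (bt_in' h1 h4)
    have := (adj_ds h3).2
    exact ⟨y, bt_out' h1 h4, by omega⟩

lemma bt_adj {a b x : Y.V} (h : Adj a b) (hx : Y.btw a x b) : x = a ∨ x = b := by
  have := bt_ds hx
  have := (adj_ds h).2
  by_cases e : Y.dist a x = 0
  · exact Or.inl (ds_zero hx.1 e).symm
  · exact Or.inr (ds_zero hx.2.1 (by omega))

/-- a point of `[a, b]` lies on `[a, c]` or on `[c, b]` -/
lemma bt_cover {a b c x : Y.V} (hx : Y.btw a x b) (hc : Y.lev b = Y.lev c) :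
    Y.btw a x c ∨ Y.btw c x b := by
  obtain ⟨m, m1, m2, m3⟩ := ex_med (bt_lev hx) hc
  exact (bt_split m1 hx).imp (fun h => bt_out h m3) fun h => bt_out' (bt_symm m2) h

/-- `m` is the projection of `u` to the segment `[a, b]` -/
def Pr (a b u m : Y.V) : Prop := Y.btw a m b ∧ Y.btw a m u ∧ Y.btw b m u

lemma ex_pr {a b u : Y.V} (h : Y.lev a = Y.lev b) (hu : Y.lev b = Y.lev u) : ∃ m, Pr a b u m :=
  let ⟨m, m1, m2, m3⟩ := ex_med h hu; ⟨m, m1, m3, m2⟩

lemma Pr.bt {a b u m x : Y.V} (h : Pr a b u m) (hx : Y.btw a x b) : Y.btw x m u :=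
  (bt_split h.1 hx).elim (fun e => bt_in e h.2.1) fun e => bt_in (bt_symm e) h.2.2

lemma Pr.of_bt {a b u m : Y.V} (h : Pr a b u m) (hu : Y.btw a u b) : m = u :=
  bt_self (h.bt hu)

/-- different projections lie on the geodesic -/
lemma Pr.two {a b u v m n : Y.V} (h : Pr a b u m) (h' : Pr a b v n) :
    m = n ∨ (Y.btw u m v ∧ Y.btw u n v) := by
  by_cases e : m = n
  · exact Or.inl e
  have h1 := bt_symm (h.bt h'.1)
  have h2 := h'.bt h.1
  exact Or.inr ⟨bt_four h1 h2 e, bt_four' h1 h2 e⟩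

lemma fix_one {g : G} {a b : Y.V} (h : Y.lev a = Y.lev b) (hne : a ≠ b) (ha : g • a = a)
    (hb : g • b = b) : g = 1 := by
  obtain ⟨e, he⟩ := exists_First h hne
  have := he.tr g
  rw [ha, hb] at this
  exact smul_eq_self (congrArg Prod.fst (this.unique he))

lemma tr_inj {g g' : G} {e : Y.Dir} (h : e.tr g = e.tr g') : g = g' := by
  have : g * e.1.g = g' * e.1.g := congrArg (fun x : Y.Dir => x.1.g) h
  exact mul_right_cancel this

end Pool.Agent.Lib.FBC.T2
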